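import Pool.Agent.Lib.MP_305fdd_al.Fr.N.B.Main
import Pool.Agent.Lib.MP_305fdd_al.Fr.N.A.p_fil
import Pool.Agent.Lib.MP_305fdd_al.Fr.N.A.p_filabs
import Pool.Agent.Lib.MP_305fdd_al.Fr.N.A.p_van
import Pool.Agent.Lib.MP_305fdd_al.Fr.N.A.p_tw2
import Pool.Agent.Lib.MP_305fdd_al.Fr.N.A.p_Keq
import Pool.Agent.Lib.MP_305fdd_al.Fr.N.A.p_Kex
import Pool.Agent.Lib.MP_305fdd_al.Fr.N.A.p_Kstep
import Pool.Agent.Lib.MP_305fdd_al.Fr.N.A.p_NS
import Pool.Agent.Lib.MP_305fdd_al.Fr.N.A.p_A6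

/-!
# MP_305fdd_al, F_r, nilpotence block, section B: `I_B` without hypotheses
-/

set_option autoImplicit false

namespace Pool.Agent.FrB

open Pool.Agent.FrN Pool.Agent.FrNA

/-- nuclei exist -/
theorem t_nuc : I_nuc := by
  intro p _ R _ _ _ X _
  obtain ⟨W, hW⟩ := p_fil p R X
  obtain ⟨j, hj⟩ := p_filabs p R X W hW 1
  have h1 : (X.tw 1).C = X.C := LinearMap.ext fun m => by
    rw [CMod.tw_apply]
    exact congrArg X.C (one_smul R m)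
  have h2 := hj j le_rfl
  rw [h1] at h2
  exact ⟨W j, nuc_top.2 h2⟩

/-- SECTION B -/
theorem t_B : I_B :=
  p_B (p_A6 (p_van' p_fil p_filabs) (p_tw2 t_nuc) p_Keq) (p_Kstep (p_Kex t_nuc))
    (p_NS (p_van' p_fil p_filabs) p_Keq) t_nuc

end Pool.Agent.FrB
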