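import Pool.Agent.Lib.MP_305fdd_al.F2.RF.Main

/-!
# MP_305fdd_al, F_r, nilpotence block, sections O and B: `p`-bases

Spanning families of the right length are `p`-bases; coordinates are additive and `p⁻¹`-linear;
words of coordinate maps.
-/

set_option autoImplicit false
set_option linter.unusedSectionVars false

namespace Pool.Agent.FrB

open Pool.Agent.F2Ch Pool.Agent.F2RF

section

variable {p : ℕ} [hp : Fact p.Prime] {K : Type} [Field K] [CharP K p]

theorem ppos : p ≠ 0 := hp.out.ne_zero

theorem pb_add {ι : Type} [Fintype ι] {w : ι → K} {π : ι → K → K} (h : IsPB p w π) (i : ι)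
    (f g : K) : π i (f + g) = π i f + π i g := by
  have h1 : f + g = ∑ j, (π j f + π j g) ^ p * w j := by
    conv_lhs => rw [← h.repr f, ← h.repr g]
    rw [← Finset.sum_add_distrib]
    refine Finset.sum_congr rfl fun j _ => ?_
    rw [add_pow_char, add_mul]
  conv_lhs => rw [h1]
  rw [h.uniq]

theorem pb_pow_mul {ι : Type} [Fintype ι] {w : ι → K} {π : ι → K → K} (h : IsPB p w π) (i : ι)
    (c f : K) : π i (c ^ p * f) = c * π i f := by
  have h1 : c ^ p * f = ∑ j, (c * π j f) ^ p * w j := by
    conv_lhs => rw [← h.repr f]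
    rw [Finset.mul_sum]
    refine Finset.sum_congr rfl fun j _ => ?_
    rw [mul_pow, mul_assoc]
  conv_lhs => rw [h1]
  rw [h.uniq]

theorem pb_zero {ι : Type} [Fintype ι] {w : ι → K} {π : ι → K → K} (h : IsPB p w π) (i : ι) :
    π i 0 = 0 := by
  have h1 := pb_pow_mul h i 0 0
  rwa [zero_mul, mul_zero] at h1

theorem pb_ext {ι : Type} [Fintype ι] {w : ι → K} {π : ι → K → K} (h : IsPB p w π) {f g : K}
    (hfg : ∀ i, π i f = π i g) : f = g := by
  rw [← h.repr f, ← h.repr g]
  simp only [hfg]

theorem pb_pinv {ι : Type} [Fintype ι] {w : ι → K} {π : ι → K → K} (h : IsPB p w π) (i : ι) :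
    IsPinv p (π i) := ⟨pb_add h i, pb_pow_mul h i⟩

theorem pb_sum {ι : Type} [Fintype ι] {w : ι → K} {π : ι → K → K} (h : IsPB p w π) (i : ι)
    {α : Type} (s : Finset α) (f : α → K) : π i (∑ j ∈ s, f j) = ∑ j ∈ s, π i (f j) := by
  classical
  induction s using Finset.induction_on with
  | empty => simp [pb_zero h]
  | insert a s ha ih => rw [Finset.sum_insert ha, Finset.sum_insert ha, pb_add h, ih]

/-- a spanning family of the right length is a `p`-basis -/
theorem pb_of_span {ι : Type} [Fintype ι] {b : ι → K} {ρ : ι → K → K} (hb : IsPB p b ρ)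
    {ι' : Type} [Fintype ι'] (w : ι' → K) (hc : Fintype.card ι' = Fintype.card ι)
    (hs : ∀ x : K, ∃ a : ι' → K, ∑ j, a j ^ p * w j = x) : ∃ π : ι' → K → K, IsPB p w π := by
  refine (p_B1 p K ι b ρ hb ι' w ?_).2 hc
  have hrho : ∀ (a : ι' → K) (i : ι), ρ i (∑ j, a j ^ p * w j) = ∑ j, a j * ρ i (w j) := by
    intro a i
    rw [pb_sum hb]
    exact Finset.sum_congr rfl fun j _ => pb_pow_mul hb i _ _
  let T : (ι' → K) →ₗ[K] (ι → K) :=
    { toFun := fun a i => ∑ j, a j * ρ i (w j)
      map_add' := fun a a' => by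
        funext i
        simp only [Pi.add_apply, add_mul, Finset.sum_add_distrib]
      map_smul' := fun c a => by
        funext i
        simp only [Pi.smul_apply, smul_eq_mul, RingHom.id_apply, Finset.mul_sum, mul_assoc] }
  have hT : ∀ a i, T a i = ∑ j, a j * ρ i (w j) := fun a i => rfl
  have hsur : Function.Surjective T := by
    intro c
    obtain ⟨a, ha⟩ := hs (∑ i, c i ^ p * b i)
    refine ⟨a, ?_⟩
    funext i
    rw [hT, ← hrho, ha, hb.uniq]
  have hfin : Module.finrank K (ι' → K) = Module.finrank K (ι → K) := by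
    rw [Module.finrank_fintype_fun_eq_card, Module.finrank_fintype_fun_eq_card, hc]
  have hinj : Function.Injective T :=
    (LinearMap.injective_iff_surjective_of_finrank_eq_finrank hfin).2 hsur
  intro a ha
  have h0 : T a = 0 := by
    funext i
    rw [hT, ← hrho, ha, pb_zero hb]
    rfl
  exact (map_eq_zero_iff T hinj).1 h0

/-- the monomials of a `p`-basis are nonzero -/
theorem mb_of_pb {d : ℕ} {t : Fin d → K} {π : (Fin d → Fin p) → K → K}
    (h : IsPB p (monY (p := p) t) π) : MB p t π := by
  refine ⟨fun i h0 => ?_, h⟩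
  have h1p : 1 < p := hp.out.one_lt
  let e : Fin d → Fin p := fun j => if j = i then ⟨1, h1p⟩ else ⟨0, hp.out.pos⟩
  have h2 : monY (p := p) t e = 0 := by
    unfold monY
    apply Finset.prod_eq_zero (Finset.mem_univ i)
    simp [e, h0]
  classical
  have h3 := h.uniq (fun j => if j = e then 1 else 0) e
  have h4 : ∑ j, (if j = e then (1 : K) else 0) ^ p * monY (p := p) t j = 0 := by
    refine Finset.sum_eq_zero fun j _ => ?_
    by_cases hj : j = e
    · rw [hj, h2, mul_zero]
    · rw [if_neg hj, zero_pow ppos, zero_mul]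
  rw [h4, pb_zero h] at h3
  simp at h3

end

end Pool.Agent.FrB
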