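import Pool.Agent.Lib.MP_305fdd_al.Fr.N.B.Loc

/-!
# MP_305fdd_al, F_r, nilpotence block, section B: charts

`Cht p Z h y π`: the elements `y i` of `Z` are a `p`-basis of the field `L` with coordinates `π`, and the
coordinate maps preserve `Z[1/h]`.  Charts exist at all maximal ideals of a regular ring, and the Cartier
operator in a chart is `F`-regular.
-/

set_option autoImplicit false
set_option linter.unusedSectionVars false

namespace Pool.Agent.FrB

open Pool.Agent.F2Ch Pool.Agent.F2RF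

section

variable {p : ℕ} [hp : Fact p.Prime] {L : Type} [Field L] [CharP L p] [Algebra (ZMod p) L]

/-- the localisations of `Z` at the maximal ideals are generated by `N` elements -/
def Reg {p : ℕ} {L : Type} [Field L] [Algebra (ZMod p) L] (Z : Subalgebra (ZMod p) L) (N : ℕ) :
    Prop :=
  ∀ m : Ideal Z, m.IsMaximal → ∃ y : Fin N → Z, (∀ i, y i ∈ m) ∧
    ∃ h : Z, h ∉ m ∧ ∀ z ∈ m, h * z ∈ Ideal.span (Set.range y)

/-- `L` is the field of fractions of `Z` -/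
def Frc {p : ℕ} {L : Type} [Field L] [Algebra (ZMod p) L] (Z : Subalgebra (ZMod p) L) : Prop :=
  ∀ x : L, ∃ a ∈ Z, ∃ b ∈ Z, b ≠ 0 ∧ x * b = a

/-- `x ∈ Z[1/h]` -/
def InL (Z : Subalgebra (ZMod p) L) (h x : L) : Prop := ∃ n : ℕ, h ^ n * x ∈ Z

/-- a chart on `Z[1/h]` -/
structure Cht (p : ℕ) {L : Type} [Field L] [Algebra (ZMod p) L] (Z : Subalgebra (ZMod p) L)
    {N : ℕ} (h : L) (y : Fin N → L) (π : (Fin N → Fin p) → L → L) : Prop where
  mb : MB p y π
  h_mem : h ∈ Z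
  h_ne : h ≠ 0
  y_mem : ∀ i, y i ∈ Z
  st : ∀ a, ∀ z ∈ Z, h * π a z ∈ Z

theorem charp_sub (Z : Subalgebra (ZMod p) L) : CharP Z p := by
  rw [CharP.charP_iff_prime_eq_zero hp.out]
  apply Subtype.ext
  have h2 : ((p : ℕ) : L) = 0 := CharP.cast_eq_zero L p
  simp

/-- CHARTS EXIST at the maximal ideals where `Z` is regular. -/
theorem exists_chart {Z : Subalgebra (ZMod p) L} (hfg : Z.FG) (hfr : Frc Z) {N : ℕ}
    {b : Fin (p ^ N) → L} {ρ : Fin (p ^ N) → L → L} (hb : IsPB p b ρ) (m : Ideal Z)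
    [hm : m.IsMaximal] (y : Fin N → Z) (hy : ∀ i, y i ∈ m) (h : Z) (hh : h ∉ m)
    (hr : ∀ z ∈ m, h * z ∈ Ideal.span (Set.range y)) :
    ∃ r : Z, r ∉ m ∧ ∃ π : (Fin N → Fin p) → L → L, Cht p Z (r : L) (fun i => (y i : L)) π := by
  have hft : Algebra.FiniteType (ZMod p) Z := ⟨(Subalgebra.fg_top Z).2 hfg⟩
  have hcp : CharP Z p := charp_sub Z
  obtain ⟨r, hrm, hgen⟩ := loc_gen p m y hy h hh hr
  have hr0 : r ≠ 0 := fun h0 => hrm (by rw [h0]; exact Ideal.zero_mem _)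
  have hr0' : (r : L) ≠ 0 := fun h0 => hr0 (Subtype.ext h0)
  have hmon : ∀ a : Fin N → Fin p, ((monY (p := p) y a : Z) : L) = monY (p := p) (fun i => (y i : L)) a := by
    intro a
    simp [monY]
  have hgen' : ∀ z : Z, ∃ c : (Fin N → Fin p) → Z,
      (r : L) ^ p * (z : L) = ∑ a, (c a : L) ^ p * monY (p := p) (fun i => (y i : L)) a := by
    intro z
    obtain ⟨c, hc⟩ := hgen z
    refine ⟨c, ?_⟩
    have h1 := congrArg (fun x : Z => (x : L)) hc
    simp only [MulMemClass.coe_mul, SubmonoidClass.coe_pow, AddSubmonoidClass.coe_finsetSum,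
      hmon] at h1
    exact h1
  have hspan : ∀ x : L, ∃ a : (Fin N → Fin p) → L,
      ∑ j, a j ^ p * monY (p := p) (fun i => (y i : L)) j = x := by
    intro x
    obtain ⟨a, ha, c, hc, hc0, hx⟩ := hfr x
    obtain ⟨d, hd⟩ := hgen' (⟨a, ha⟩ * ⟨c, hc⟩ ^ (p - 1))
    refine ⟨fun j => d j * ((r : L) * c)⁻¹, ?_⟩
    have h1 : ∑ j, ((d j : L) * ((r : L) * c)⁻¹) ^ p * monY (p := p) (fun i => (y i : L)) j =
        (((r : L) * c)⁻¹) ^ p * ((r : L) ^ p * (a * c ^ (p - 1))) := by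
      have h2 : (((⟨a, ha⟩ : Z) * (⟨c, hc⟩ : Z) ^ (p - 1) : Z) : L) = a * c ^ (p - 1) := rfl
      rw [← h2, hd, Finset.mul_sum]
      refine Finset.sum_congr rfl fun j _ => ?_
      rw [mul_pow]
      ring
    rw [h1, inv_pow, mul_pow, ← hx]
    have h3 : c ^ p = c * c ^ (p - 1) := by
      rw [← pow_succ', Nat.sub_add_cancel hp.out.one_le]
    have h4 : (r : L) ^ p ≠ 0 := pow_ne_zero _ hr0'
    have h5 : c ^ (p - 1) ≠ 0 := pow_ne_zero _ hc0
    rw [h3]
    field_simp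
  obtain ⟨π, hπ⟩ := pb_of_span hb (monY (p := p) fun i => (y i : L)) (by simp) hspan
  refine ⟨r, hrm, π, mb_of_pb hπ, r.2, hr0', fun i => (y i).2, fun a z hz => ?_⟩
  obtain ⟨c, hc⟩ := hgen' ⟨z, hz⟩
  have h1 := hπ.uniq (fun a => (c a : L)) a
  rw [← hc] at h1
  have h2 : π a ((r : L) ^ p * z) = r * π a z := pb_pow_mul hπ a _ _
  rw [← h2]
  simp only at h1
  rw [h1]
  exact (c a).2

/-- the exponent `(p - 1, .., p - 1)` -/
def jt (p N : ℕ) [NeZero p] : Fin N → Fin p := fun _ => ⟨p - 1, Nat.sub_lt (NeZero.pos p) one_pos⟩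

/-- the exponent `(p - 1, .., p - 1) - a` -/
def jc {p N : ℕ} [NeZero p] (a : Fin N → Fin p) : Fin N → Fin p := fun i =>
  ⟨p - 1 - a i, lt_of_le_of_lt (Nat.sub_le _ _) (Nat.sub_lt (NeZero.pos p) one_pos)⟩

/-- the coordinates from the last coordinate -/
theorem cy_coord {N : ℕ} {y : Fin N → L} {π : (Fin N → Fin p) → L → L} (h : MB p y π)
    (a : Fin N → Fin p) (x : L) : π (jt p N) (monY (p := p) y (jc a) * x) = π a x := by
  rw [(w7 p L N y π h).1, (w7 p L N y π h).1 a]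
  have h1 : ∀ i, y i ≠ 0 := h.ne
  have h2 : monY (p := p) y (jt p N) = monY (p := p) y a * monY (p := p) y (jc a) := by
    unfold monY
    rw [← Finset.prod_mul_distrib]
    refine Finset.prod_congr rfl fun i _ => ?_
    rw [← pow_add]
    congr 1
    have h3 : (a i : ℕ) ≤ p - 1 := Nat.le_sub_one_of_lt (a i).2
    simp only [jt, jc]
    omega
  have h3 : monY (p := p) y (jc a) ≠ 0 := Finset.prod_ne_zero_iff.2 fun i _ => pow_ne_zero _ (h1 i)
  rw [h2, mul_inv, ← mul_assoc, mul_assoc (monY (p := p) y a)⁻¹, inv_mul_cancel₀ h3, mul_one]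

/-- `x ∈ m ^ k * Z[1/h]` -/
def Mk (Z : Subalgebra (ZMod p) L) (m : Ideal Z) (h : Z) (k : ℕ) (x : L) : Prop :=
  ∃ n : ℕ, ∃ u ∈ m ^ k, (h : L) ^ n * x = (u : Z)

theorem mk_zero {Z : Subalgebra (ZMod p) L} {m : Ideal Z} {h : Z} {k : ℕ} : Mk Z m h k 0 :=
  ⟨0, 0, Ideal.zero_mem _, by simp⟩

theorem mk_add {Z : Subalgebra (ZMod p) L} {m : Ideal Z} {h : Z} {k : ℕ} {x x' : L}
    (hx : Mk Z m h k x) (hx' : Mk Z m h k x') : Mk Z m h k (x + x') := by
  obtain ⟨n, u, hu, h1⟩ := hx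
  obtain ⟨n', u', hu', h1'⟩ := hx'
  refine ⟨n + n', h ^ n' * u + h ^ n * u', Ideal.add_mem _ (Ideal.mul_mem_left _ _ hu)
    (Ideal.mul_mem_left _ _ hu'), ?_⟩
  push_cast
  rw [← h1, ← h1']
  ring

theorem mk_sum {Z : Subalgebra (ZMod p) L} {m : Ideal Z} {h : Z} {k : ℕ} {α : Type}
    (s : Finset α) (f : α → L) (hf : ∀ i ∈ s, Mk Z m h k (f i)) : Mk Z m h k (∑ i ∈ s, f i) := by
  classical
  induction s using Finset.induction_on with
  | empty => simpa using mk_zero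
  | insert a s ha ih =>
    rw [Finset.sum_insert ha]
    exact mk_add (hf a (Finset.mem_insert_self _ _))
      (ih fun i hi => hf i (Finset.mem_insert_of_mem hi))

theorem mk_pow_mul {Z : Subalgebra (ZMod p) L} {m : Ideal Z} {h : Z} {k : ℕ} {x : L} (z : Z)
    (hx : Mk Z m h k x) : Mk Z m h (k * p) (x ^ p * z) := by
  obtain ⟨n, u, hu, h1⟩ := hx
  refine ⟨n * p, u ^ p * z, Ideal.mul_mem_right _ _ (by rw [pow_mul]; exact Ideal.pow_mem_pow hu p), ?_⟩
  push_cast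
  rw [← h1]
  ring

/-- the main step of the `F`-regularity -/
theorem mk_step {Z : Subalgebra (ZMod p) L} {N : ℕ} {h : Z} {y : Fin N → L}
    {π : (Fin N → Fin p) → L → L} (C : Cht p Z (h : L) y π) (m : Ideal Z) (e : ℕ) :
    ∀ x : L, (∀ z ∈ Z, Mk Z m h 1 ((π (jt p N))^[e] (x * z))) → Mk Z m h (p ^ e) x := by
  have hmonZ : ∀ a : Fin N → Fin p, monY (p := p) y a ∈ Z := fun a =>
    prod_mem fun i _ => pow_mem (C.y_mem i) _
  induction e with
  | zero =>
    intro x hx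
    have h1 := hx 1 (one_mem Z)
    rwa [mul_one] at h1
  | succ e ih =>
    intro x hx
    have h1 : ∀ a, Mk Z m h (p ^ e) (π a x) := by
      intro a
      refine ih _ fun z hz => ?_
      have h2 := hx (z ^ p * monY (p := p) y (jc a)) (mul_mem (pow_mem hz p) (hmonZ _))
      rw [Function.iterate_succ_apply] at h2
      have h3 : π (jt p N) (x * (z ^ p * monY (p := p) y (jc a))) = π a x * z := by
        have h4 : x * (z ^ p * monY (p := p) y (jc a)) =
            z ^ p * (monY (p := p) y (jc a) * x) := by ring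
        rw [h4, pb_pow_mul C.mb.pb, cy_coord C.mb, mul_comm]
      rwa [h3] at h2
    rw [← C.mb.pb.repr x, pow_succ]
    refine mk_sum _ _ fun a _ => ?_
    exact mk_pow_mul ⟨_, hmonZ a⟩ (h1 a)

/-- coordinates preserve `Z[1/h]` -/
theorem cht_inl {Z : Subalgebra (ZMod p) L} {N : ℕ} {h : L} {y : Fin N → L}
    {π : (Fin N → Fin p) → L → L} (C : Cht p Z h y π) (a : Fin N → Fin p) {x : L}
    (hx : InL Z h x) : InL Z h (π a x) := by
  obtain ⟨n, hn⟩ := hx
  refine ⟨n + 1, ?_⟩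
  have h1 : h ^ (n * p - n) * (h ^ n * x) ∈ Z := mul_mem (pow_mem C.h_mem _) hn
  have h2 : h ^ (n * p - n) * (h ^ n * x) = (h ^ n) ^ p * x := by
    rw [← mul_assoc, ← pow_add, ← pow_mul]
    congr 2
    have : n ≤ n * p := Nat.le_mul_of_pos_right n hp.out.pos
    omega
  rw [h2] at h1
  have h3 := C.st a _ h1
  rw [pb_pow_mul C.mb.pb] at h3
  have h4 : h ^ (n + 1) * π a x = h * (h ^ n * π a x) := by ring
  rw [h4]
  exact h3

theorem cht_inl_iter {Z : Subalgebra (ZMod p) L} {N : ℕ} {h : L} {y : Fin N → L}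
    {π : (Fin N → Fin p) → L → L} (C : Cht p Z h y π) (e : ℕ) {x : L}
    (hx : InL Z h x) : InL Z h ((π (jt p N))^[e] x) := by
  induction e generalizing x with
  | zero => exact hx
  | succ e ih =>
    rw [Function.iterate_succ_apply]
    exact ih (cht_inl C _ hx)

/-- an element of `Z` which is in all `m ^ k * Z[1/h]` is zero -/
theorem mk_all {Z : Subalgebra (ZMod p) L} (hfg : Z.FG) (m : Ideal Z) [hm : m.IsMaximal] {h : Z}
    (hh : h ∉ m) (c : Z) (hc : ∀ e : ℕ, Mk Z m h (p ^ e) (c : L)) : c = 0 := by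
  have hft : Algebra.FiniteType (ZMod p) Z := ⟨(Subalgebra.fg_top Z).2 hfg⟩
  have hno : IsNoetherianRing Z := Algebra.FiniteType.isNoetherianRing (ZMod p) Z
  have h1 : ∀ k : ℕ, c ∈ m ^ k := by
    intro k
    obtain ⟨n, u, hu, h1⟩ := hc k
    have h2 : h ^ n * c = u := Subtype.ext (by push_cast; exact h1)
    have h3 : h ^ n ∉ m := fun h0 => hh (hm.isPrime.mem_of_pow_mem n h0)
    obtain ⟨g, hg⟩ : ∃ g : Z, 1 - h ^ n * g ∈ m := by
      obtain ⟨u, hu⟩ := Ideal.Quotient.exists_inv (I := m) (a := Ideal.Quotient.mk m (h ^ n)) (by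
        rwa [Ne, Ideal.Quotient.eq_zero_iff_mem])
      obtain ⟨g, rfl⟩ := Ideal.Quotient.mk_surjective u
      refine ⟨g, ?_⟩
      rw [← Ideal.Quotient.eq_zero_iff_mem, map_sub, map_mul, map_one, hu, sub_self]
    obtain ⟨w, hw⟩ : h ^ n * g ∣ 1 - (1 - h ^ n * g) ^ k := by
      have h3 := sub_dvd_pow_sub_pow (1 : Z) (1 - h ^ n * g) k
      rwa [one_pow, sub_sub_cancel] at h3
    have h4 : c = g * w * (h ^ n * c) + c * (1 - h ^ n * g) ^ k := by
      have h5 : (1 - h ^ n * g) ^ k = 1 - h ^ n * g * w := by rw [← hw]; ring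
      rw [h5]
      ring
    rw [h4]
    refine Ideal.add_mem _ (Ideal.mul_mem_left _ _ ?_) (Ideal.mul_mem_left _ _
      (Ideal.pow_mem_pow hg k))
    rw [h2]
    exact Ideal.pow_le_pow_right (Nat.lt_pow_self hp.out.one_lt).le hu
  have h2 : c ∈ ⨅ i : ℕ, m ^ i := by
    rw [Ideal.mem_iInf]
    exact h1
  rwa [Ideal.iInf_pow_eq_bot_of_isDomain m hm.ne_top, Ideal.mem_bot] at h2

/-- `F`-REGULARITY of a chart. -/
theorem freg {Z : Subalgebra (ZMod p) L} (hfg : Z.FG) {N : ℕ} {h : Z} {y : Fin N → L}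
    {π : (Fin N → Fin p) → L → L} (C : Cht p Z (h : L) y π) (m : Ideal Z) [hm : m.IsMaximal]
    (hh : h ∉ m) (c : Z) (hc : c ≠ 0) :
    ∃ (e n : ℕ) (z u : Z), u ∉ m ∧ (h : L) ^ n * (π (jt p N))^[e] ((c : L) * z) = u := by
  by_contra hcon
  push Not at hcon
  refine hc (mk_all hfg m hh c fun e => mk_step C m e _ fun z hz => ?_)
  obtain ⟨n, hn⟩ : InL Z (h : L) ((π (jt p N))^[e] ((c : L) * z)) :=
    cht_inl_iter C e ⟨0, by rw [pow_zero, one_mul]; exact mul_mem c.2 hz⟩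
  refine ⟨n, ⟨_, hn⟩, ?_, rfl⟩
  rw [pow_one]
  by_contra h1
  exact hcon e n ⟨z, hz⟩ ⟨_, hn⟩ h1 rfl

end

end Pool.Agent.FrB
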