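import Pool.Agent.Lib.MP_305fdd_al.Fr.N.B.Om

/-!
# MP_305fdd_al, F_r, nilpotence block, section B: regular rings are completely integrally closed; (B0)
-/

set_option autoImplicit false
set_option linter.unusedSectionVars false

namespace Pool.Agent.FrB

open Pool.Agent.F2Ch Pool.Agent.F2RF

section

variable {p : ℕ} [hp : Fact p.Prime] {L : Type} [Field L] [CharP L p] [Algebra (ZMod p) L]

theorem cy_iter_pow_mul {N : ℕ} {y : Fin N → L} {π : (Fin N → Fin p) → L → L} (h : MB p y π)
    (e : ℕ) (x f : L) :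
    (π (jt p N))^[e] (x ^ (p ^ e) * f) = x * (π (jt p N))^[e] f := by
  induction e generalizing f with
  | zero => simp
  | succ e ih =>
    rw [Function.iterate_succ_apply, Function.iterate_succ_apply, pow_succ, pow_mul,
      pb_pow_mul h.pb, ih]

/-- (C') REGULAR RINGS ARE COMPLETELY INTEGRALLY CLOSED. -/
theorem mem_of_aint {Z : Subalgebra (ZMod p) L} (hfg : Z.FG) (hfr : Frc Z) {N : ℕ}
    {b : Fin (p ^ N) → L} {ρ : Fin (p ^ N) → L → L} (hb : IsPB p b ρ) (hreg : Reg Z N)
    (x c : L) (hc : c ∈ Z) (hc0 : c ≠ 0) (h : ∀ k : ℕ, c * x ^ k ∈ Z) : x ∈ Z := by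
  have key : x ∈ Submodule.span Z ({1} : Set L) := by
    refine mem_of_loc _ x fun m hm => ?_
    obtain ⟨y, hy, h', hh', hr⟩ := hreg m hm
    obtain ⟨r, hrm, π, C⟩ := exists_chart hfg hfr hb m y hy h' hh' hr
    obtain ⟨e, n, z, u, hu, h1⟩ := freg hfg C m hrm ⟨c, hc⟩
      (fun h0 => hc0 (congrArg Subtype.val h0))
    have h2 : x ^ (p ^ e) * (c * (z : L)) ∈ Z := by
      have h3 : x ^ (p ^ e) * (c * (z : L)) = (c * x ^ (p ^ e)) * z := by ring
      rw [h3]
      exact mul_mem (h _) z.2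
    obtain ⟨n', hn'⟩ := cht_inl_iter C e (x := x ^ (p ^ e) * (c * (z : L)))
      ⟨0, by rwa [pow_zero, one_mul]⟩
    rw [cy_iter_pow_mul C.mb] at hn'
    refine ⟨r ^ n' * u, fun h3 => ?_, ?_⟩
    · rcases hm.isPrime.mem_or_mem h3 with h4 | h4
      · exact hrm (hm.isPrime.mem_of_pow_mem _ h4)
      · exact hu h4
    · have h3 : ((r ^ n' * u : Z) : L) * x =
          ((r ^ n * ⟨_, hn'⟩ : Z) : Z) • (1 : L) := by
        rw [Algebra.smul_def, mul_one]
        have h4 : algebraMap Z L (r ^ n * ⟨_, hn'⟩) =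
          (r : L) ^ n * ((r : L) ^ n' * (x * (π (jt p N))^[e] (c * (z : L)))) := rfl
        rw [h4]
        push_cast
        rw [← h1]
        ring
      rw [h3]
      exact Submodule.smul_mem _ _ (Submodule.subset_span rfl)
  obtain ⟨z, hz⟩ := Submodule.mem_span_singleton.1 key
  rw [← hz, Algebra.smul_def, mul_one]
  exact z.2

/-- REGULAR RINGS ARE INTEGRALLY CLOSED. -/
theorem mem_of_int {Z : Subalgebra (ZMod p) L} (hfg : Z.FG) (hfr : Frc Z) {N : ℕ}
    {b : Fin (p ^ N) → L} {ρ : Fin (p ^ N) → L → L} (hb : IsPB p b ρ) (hreg : Reg Z N)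
    (x : L) (hx : IsIntegral Z x) : x ∈ Z := by
  obtain ⟨P, hP, h0⟩ := hx
  obtain ⟨a, ha, c, hc, hc0, hac⟩ := hfr x
  set n := P.natDegree with hn
  -- `c ^ n * x ^ k ∈ Z`
  refine mem_of_aint hfg hfr hb hreg x (c ^ n) (pow_mem hc n) (pow_ne_zero _ hc0) ?_
  intro k
  induction k using Nat.strong_induction_on with
  | _ k ih =>
    by_cases hk : k ≤ n
    · have h1 : c ^ n * x ^ k = c ^ (n - k) * (x * c) ^ k := by
        rw [mul_pow, ← mul_assoc, mul_comm (c ^ (n - k)), mul_assoc, ← pow_add,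
          Nat.sub_add_cancel hk, mul_comm]
      rw [h1, hac]
      exact mul_mem (pow_mem hc _) (pow_mem ha _)
    · push Not at hk
      have h1 : x ^ n = -∑ i ∈ Finset.range n, (P.coeff i : L) * x ^ i := by
        rw [Polynomial.eval₂_eq_sum_range, Finset.sum_range_succ] at h0
        have h2 : P.coeff P.natDegree = 1 := hP
        rw [h2, map_one, one_mul] at h0
        rw [eq_neg_iff_add_eq_zero, add_comm]
        exact h0
      have h2 : c ^ n * x ^ k = -∑ i ∈ Finset.range n,
          (P.coeff i : L) * (c ^ n * x ^ (k - n + i)) := by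
        have h3 : x ^ k = x ^ (k - n) * x ^ n := by rw [← pow_add, Nat.sub_add_cancel hk.le]
        rw [h3, h1, mul_neg, mul_neg, Finset.mul_sum, Finset.mul_sum]
        congr 1
        refine Finset.sum_congr rfl fun i _ => ?_
        rw [pow_add]
        ring
      rw [h2]
      refine neg_mem (sum_mem fun i hi => mul_mem (P.coeff i).2 (ih _ ?_))
      have := Finset.mem_range.1 hi
      omega

end

end Pool.Agent.FrB
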