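import Pool.Agent.Lib.MP_305fdd_al.Fr.N.B.Chart

/-!
# MP_305fdd_al, F_r, nilpotence block, section B: the smallest stable submodule

`Om Z Φ` is the smallest nonzero `Z`-submodule of `L` which is stable under the Cartier operator `Φ`.  For a
regular ring it is finitely generated and locally free of rank one.
-/

set_option autoImplicit false
set_option linter.unusedSectionVars false

namespace Pool.Agent.FrB

open Pool.Agent.F2Ch Pool.Agent.F2RF

section

variable {p : ℕ} [hp : Fact p.Prime] {L : Type} [Field L] [CharP L p] [Algebra (ZMod p) L]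

/-- `Φ f = J * π_top (J⁻¹ * f)` -/
def JForm {N : ℕ} (π : (Fin N → Fin p) → L → L) (J : L) (Φ : L → L) : Prop :=
  J ≠ 0 ∧ ∀ f, Φ f = J * π (jt p N) (J⁻¹ * f)

theorem exists_jform {N : ℕ} {y : Fin N → L} {π : (Fin N → Fin p) → L → L} (h : MB p y π)
    {Φ : L → L} (hΦ : LogTy p Φ) : ∃ J : L, JForm π J Φ := by
  obtain ⟨g, hg, h1⟩ := w4 p L Φ hΦ N y π h
  have hP : (∏ i, y i) ≠ 0 := Finset.prod_ne_zero_iff.2 fun i _ => h.ne i
  refine ⟨(∏ i, y i) * g⁻¹, mul_ne_zero hP (inv_ne_zero hg), fun f => ?_⟩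
  rw [h1, (w7 p L N y π h).2.1 (jt p N) (fun _ => rfl)]
  rw [mul_inv, inv_inv]
  have h2 : (∏ i, y i) * ((∏ i, y i)⁻¹ * g * f) = g * f := by
    rw [← mul_assoc, ← mul_assoc, mul_inv_cancel₀ hP, one_mul]
  rw [h2]
  field_simp

theorem jform_iter {N : ℕ} {π : (Fin N → Fin p) → L → L} {J : L} {Φ : L → L}
    (h : JForm π J Φ) (e : ℕ) (f : L) : Φ^[e] (J * f) = J * (π (jt p N))^[e] f := by
  induction e generalizing f with
  | zero => rfl
  | succ e ih =>
    rw [Function.iterate_succ_apply, Function.iterate_succ_apply, h.2, inv_mul_cancel_left₀ h.1, ih]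

/-- stable submodules -/
def Stb {Z : Subalgebra (ZMod p) L} (Φ : L → L) (Q : Submodule Z L) : Prop := ∀ x ∈ Q, Φ x ∈ Q

theorem stb_iter {Z : Subalgebra (ZMod p) L} {Φ : L → L} {Q : Submodule Z L} (h : Stb Φ Q) (e : ℕ)
    {x : L} (hx : x ∈ Q) : Φ^[e] x ∈ Q := by
  induction e generalizing x with
  | zero => exact hx
  | succ e ih =>
    rw [Function.iterate_succ_apply]
    exact ih (h x hx)

/-- the smallest nonzero stable submodule -/
def Om (Z : Subalgebra (ZMod p) L) (Φ : L → L) : Submodule Z L :=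
  sInf {Q | Q ≠ ⊥ ∧ Stb Φ Q}

theorem om_le {Z : Subalgebra (ZMod p) L} {Φ : L → L} {Q : Submodule Z L} (h : Q ≠ ⊥)
    (hs : Stb Φ Q) : Om Z Φ ≤ Q := sInf_le ⟨h, hs⟩

theorem om_stb (Z : Subalgebra (ZMod p) L) (Φ : L → L) : Stb Φ (Om Z Φ) := by
  intro x hx
  rw [Om, Submodule.mem_sInf] at hx ⊢
  exact fun Q hQ => hQ.2 x (hx Q hQ)

/-- a nonzero stable submodule contains a local generator -/
theorem stb_loc {Z : Subalgebra (ZMod p) L} (hfg : Z.FG) (hfr : Frc Z) {N : ℕ} {h : Z}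
    {y : Fin N → L} {π : (Fin N → Fin p) → L → L} (C : Cht p Z (h : L) y π) {J : L} {Φ : L → L}
    (hJ : JForm π J Φ) (m : Ideal Z) [hm : m.IsMaximal] (hh : h ∉ m) {Q : Submodule Z L}
    (hQ : Q ≠ ⊥) (hs : Stb Φ Q) : ∃ u : Z, u ∉ m ∧ (u : L) * J ∈ Q := by
  obtain ⟨q, hq, hq0⟩ := Submodule.exists_mem_ne_zero_of_ne_bot hQ
  obtain ⟨a, ha, b, hb, hb0, hab⟩ := hfr (J⁻¹ * q)
  have ha0 : a ≠ 0 := by
    rw [← hab]
    exact mul_ne_zero (mul_ne_zero (inv_ne_zero hJ.1) hq0) hb0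
  obtain ⟨e, n, z, u, hu, h1⟩ := freg hfg C m hh ⟨a, ha⟩ (fun h0 => ha0 (congrArg Subtype.val h0))
  refine ⟨u, hu, ?_⟩
  have h2 : J * (a * (z : L)) ∈ Q := by
    have h3 : J * (a * (z : L)) = ((⟨b, hb⟩ * z : Z) : Z) • q := by
      rw [Algebra.smul_def, ← hab]
      have h4 : algebraMap Z L (⟨b, hb⟩ * z) = b * (z : L) := rfl
      rw [h4]
      have := hJ.1
      field_simp
    rw [h3]
    exact Submodule.smul_mem _ _ hq
  have h3 := stb_iter hs e h2
  rw [jform_iter hJ] at h3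
  have h4 : (u : L) * J = (h ^ n : Z) • (J * (π (jt p N))^[e] (a * (z : L))) := by
    rw [← h1, Algebra.smul_def]
    have h5 : algebraMap Z L (h ^ n) = (h : L) ^ n := rfl
    rw [h5]
    ring
  rw [h4]
  exact Submodule.smul_mem _ _ h3

/-- `Z[1/h] * J` -/
def locM (Z : Subalgebra (ZMod p) L) (h : Z) (J : L) : Submodule Z L where
  carrier := {x | InL Z (h : L) (J⁻¹ * x)}
  add_mem' := by
    rintro x x' ⟨n, hn⟩ ⟨n', hn'⟩
    refine ⟨n + n', ?_⟩
    have h1 : (h : L) ^ (n + n') * (J⁻¹ * (x + x')) =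
        (h : L) ^ n' * ((h : L) ^ n * (J⁻¹ * x)) + (h : L) ^ n * ((h : L) ^ n' * (J⁻¹ * x')) := by
      ring
    rw [h1]
    exact add_mem (mul_mem (pow_mem h.2 _) hn) (mul_mem (pow_mem h.2 _) hn')
  zero_mem' := ⟨0, by simp⟩
  smul_mem' := by
    rintro z x ⟨n, hn⟩
    refine ⟨n, ?_⟩
    rw [Algebra.smul_def]
    have h1 : (h : L) ^ n * (J⁻¹ * (algebraMap Z L z * x)) = (z : L) * ((h : L) ^ n * (J⁻¹ * x)) := by
      have h2 : algebraMap Z L z = (z : L) := rfl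
      rw [h2]
      ring
    rw [h1]
    exact mul_mem z.2 hn

theorem mem_locM {Z : Subalgebra (ZMod p) L} {h : Z} {J x : L} :
    x ∈ locM Z h J ↔ InL Z (h : L) (J⁻¹ * x) := Iff.rfl

theorem locM_stb {Z : Subalgebra (ZMod p) L} {N : ℕ} {h : Z}
    {y : Fin N → L} {π : (Fin N → Fin p) → L → L} (C : Cht p Z (h : L) y π) {J : L} {Φ : L → L}
    (hJ : JForm π J Φ) : locM Z h J ≠ ⊥ ∧ Stb Φ (locM Z h J) := by
  refine ⟨fun h0 => hJ.1 ?_, fun x hx => ?_⟩
  · have h1 : J ∈ locM Z h J := ⟨0, by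
      rw [pow_zero, one_mul, inv_mul_cancel₀ hJ.1]
      exact one_mem Z⟩
    rwa [h0, Submodule.mem_bot] at h1
  · rw [mem_locM, hJ.2, inv_mul_cancel_left₀ hJ.1]
    exact cht_inl C _ hx

/-- an additive criterion: an element of `L` is in a submodule if it is so locally -/
theorem mem_of_loc {Z : Subalgebra (ZMod p) L} (Q : Submodule Z L) (x : L)
    (h : ∀ m : Ideal Z, m.IsMaximal → ∃ u : Z, u ∉ m ∧ (u : L) * x ∈ Q) : x ∈ Q := by
  let I : Ideal Z :=
    { carrier := {z | (z : L) * x ∈ Q}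
      add_mem' := by
        intro a b ha hb
        have h1 : ((a + b : Z) : L) * x = (a : L) * x + (b : L) * x := by push_cast; ring
        show ((a + b : Z) : L) * x ∈ Q
        rw [h1]
        exact Q.add_mem ha hb
      zero_mem' := by
        show ((0 : Z) : L) * x ∈ Q
        simp
      smul_mem' := by
        intro c a ha
        show ((c * a : Z) : L) * x ∈ Q
        have h1 : ((c * a : Z) : L) * x = c • ((a : L) * x) := by
          rw [Algebra.smul_def]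
          have h2 : algebraMap Z L c = (c : L) := rfl
          rw [h2]
          push_cast
          ring
        rw [h1]
        exact Q.smul_mem _ ha }
  have hI : I = ⊤ := by
    by_contra hne
    obtain ⟨m, hm, hIm⟩ := Ideal.exists_le_maximal I hne
    obtain ⟨u, hu, h1⟩ := h m hm
    exact hu (hIm h1)
  have h1 : (1 : Z) ∈ I := by rw [hI]; trivial
  have h2 : ((1 : Z) : L) * x ∈ Q := h1
  simpa using h2

/-- quasi-compactness -/
theorem qc {Z : Subalgebra (ZMod p) L} (A : Set Z)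
    (h : ∀ m : Ideal Z, m.IsMaximal → ∃ u ∈ A, u ∉ m) :
    ∃ T : Finset Z, (T : Set Z) ⊆ A ∧ ∀ m : Ideal Z, m.IsMaximal → ∃ u ∈ T, u ∉ m := by
  have h1 : Ideal.span A = ⊤ := by
    by_contra hne
    obtain ⟨m, hm, hIm⟩ := Ideal.exists_le_maximal _ hne
    obtain ⟨u, hu, h1⟩ := h m hm
    exact h1 (hIm (Ideal.subset_span hu))
  obtain ⟨T, hT, h2⟩ := (Ideal.span_eq_top_iff_finite A).1 h1
  refine ⟨T, hT, fun m hm => ?_⟩
  by_contra hcon
  push Not at hcon
  have h3 : Ideal.span (T : Set Z) ≤ m := Ideal.span_le.2 fun u hu => hcon u hu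
  rw [h2] at h3
  exact hm.ne_top (top_le_iff.1 h3)

/-- A chart of `(L, Φ)` at the maximal ideal `m`, together with a local generator `J` -/
structure LocG {Z : Subalgebra (ZMod p) L} (Φ : L → L) (m : Ideal Z) (N : ℕ) (h : Z)
    (y : Fin N → L) (π : (Fin N → Fin p) → L → L) (J : L) : Prop where
  cht : Cht p Z (h : L) y π
  h_nm : h ∉ m
  jf : JForm π J Φ
  y_m : ∀ i, ∃ y' ∈ m, y i = (y' : Z)
  /-- the ideal `m` is generated by the `y i` on `Z[1/h]` -/
  gen : ∀ z ∈ m, ∃ c : Fin N → Z, ∃ n : ℕ, (h : L) ^ n * z = ∑ i, (c i : L) * y i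

theorem exists_locG {Z : Subalgebra (ZMod p) L} (hfg : Z.FG) (hfr : Frc Z) {N : ℕ}
    {b : Fin (p ^ N) → L} {ρ : Fin (p ^ N) → L → L} (hb : IsPB p b ρ) (hreg : Reg Z N)
    {Φ : L → L} (hΦ : LogTy p Φ) (m : Ideal Z) (hm : m.IsMaximal) :
    ∃ (h : Z) (y : Fin N → L) (π : (Fin N → Fin p) → L → L) (J : L), LocG Φ m N h y π J := by
  obtain ⟨y, hy, h, hh, hr⟩ := hreg m hm
  obtain ⟨r, hrm, π, C⟩ := exists_chart hfg hfr hb m y hy h hh hr
  obtain ⟨J, hJ⟩ := exists_jform C.mb hΦ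
  have h0 : (h : L) ≠ 0 := fun h0 => hh (by
    have h1 : h = 0 := Subtype.ext h0
    rw [h1]
    exact Ideal.zero_mem _)
  refine ⟨r * h, fun i => (y i : L), π, J, ⟨⟨C.mb, (r * h).2, ?_, C.y_mem, ?_⟩, ?_, hJ,
    fun i => ⟨y i, hy i, rfl⟩, ?_⟩⟩
  · push_cast
    exact mul_ne_zero C.h_ne h0
  · intro a z hz
    push_cast
    have h1 : (r : L) * h * π a z = h * (r * π a z) := by ring
    rw [h1]
    exact mul_mem h.2 (C.st a z hz)
  · intro h1
    rcases hm.isPrime.mem_or_mem h1 with h2 | h2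
    · exact hrm h2
    · exact hh h2
  · intro z hz
    obtain ⟨c, hc⟩ := Ideal.mem_span_range_iff_exists_fun.1 (hr z hz)
    refine ⟨fun i => r * c i, 1, ?_⟩
    have h1 := congrArg (fun x : Z => (x : L)) hc
    simp only [AddSubmonoidClass.coe_finsetSum, MulMemClass.coe_mul] at h1
    push_cast
    rw [pow_one, mul_assoc, ← h1, Finset.mul_sum]
    exact Finset.sum_congr rfl fun i _ => by ring

/-- THE STRUCTURE OF `Om`: it is not zero, finitely generated, and locally generated by `J`. -/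
theorem om_main {Z : Subalgebra (ZMod p) L} (hfg : Z.FG) (hfr : Frc Z) {N : ℕ}
    {b : Fin (p ^ N) → L} {ρ : Fin (p ^ N) → L → L} (hb : IsPB p b ρ) (hreg : Reg Z N)
    {Φ : L → L} (hΦ : LogTy p Φ) :
    Om Z Φ ≠ ⊥ ∧ (Om Z Φ).FG ∧ ∀ m : Ideal Z, m.IsMaximal →
      ∃ (h : Z) (y : Fin N → L) (π : (Fin N → Fin p) → L → L) (J : L), LocG Φ m N h y π J ∧
        Om Z Φ ≤ locM Z h J ∧ ∃ u : Z, u ∉ m ∧ (u : L) * J ∈ Om Z Φ := by
  classical
  choose! H Y Pi JJ hG using fun (m : Ideal Z) (hm : m.IsMaximal) =>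
    exists_locG hfg hfr hb hreg hΦ m hm
  -- finitely many charts are enough
  obtain ⟨T, hT, hTm⟩ := qc (H '' {m : Ideal Z | m.IsMaximal}) fun m hm =>
    ⟨H m, ⟨m, hm, rfl⟩, (hG m hm).h_nm⟩
  choose! mm hmm using fun (t : Z) (ht : t ∈ T) => hT ht
  have hmax : ∀ t ∈ T, (mm t).IsMaximal := fun t ht => (hmm t ht).1
  have hH : ∀ t ∈ T, H (mm t) = t := fun t ht => (hmm t ht).2
  choose! a ha b' hb' hb0 hab using fun x : L => hfr x
  set c1 : L := ∏ t ∈ T, a (JJ (mm t)) with hc1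
  have ha0 : ∀ t ∈ T, a (JJ (mm t)) ≠ 0 := by
    intro t ht
    rw [← hab]
    exact mul_ne_zero (hG _ (hmax t ht)).jf.1 (hb0 _)
  have hc10 : c1 ≠ 0 := Finset.prod_ne_zero_iff.2 ha0
  have hc1J : ∀ t ∈ T, ∃ z : Z, c1 = z * JJ (mm t) := by
    intro t ht
    refine ⟨⟨b' (JJ (mm t)) * ∏ s ∈ T.erase t, a (JJ (mm s)),
      mul_mem (hb' _) (prod_mem fun s _ => ha _)⟩, ?_⟩
    rw [hc1, ← Finset.mul_prod_erase _ _ ht, ← hab (JJ (mm t))]
    ring
  have hc1Q : ∀ Q : Submodule Z L, Q ≠ ⊥ → Stb Φ Q → c1 ∈ Q := by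
    intro Q hQ hs
    refine mem_of_loc Q c1 fun m0 hm0 => ?_
    obtain ⟨t, ht, htm⟩ := hTm m0 hm0
    have hGt := hG _ (hmax t ht)
    obtain ⟨u, hu, huJ⟩ := stb_loc hfg hfr hGt.cht hGt.jf m0 (by rwa [hH t ht]) hQ hs
    obtain ⟨z, hz⟩ := hc1J t ht
    refine ⟨u, hu, ?_⟩
    have h1 : (u : L) * c1 = z • ((u : L) * JJ (mm t)) := by
      rw [hz, Algebra.smul_def]
      have h2 : algebraMap Z L z = (z : L) := rfl
      rw [h2]
      ring
    rw [h1]
    exact Q.smul_mem _ huJ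
  have hne : Om Z Φ ≠ ⊥ := by
    intro h0
    have h1 : c1 ∈ Om Z Φ := by
      rw [Om, Submodule.mem_sInf]
      exact fun Q hQ => hc1Q Q hQ.1 hQ.2
    rw [h0, Submodule.mem_bot] at h1
    exact hc10 h1
  have hloc : ∀ m : Ideal Z, m.IsMaximal →
      ∃ (h : Z) (y : Fin N → L) (π : (Fin N → Fin p) → L → L) (J : L), LocG Φ m N h y π J ∧
        Om Z Φ ≤ locM Z h J ∧ ∃ u : Z, u ∉ m ∧ (u : L) * J ∈ Om Z Φ := by
    intro m hm
    have hGm := hG m hm
    obtain ⟨h1, h2⟩ := locM_stb hGm.cht hGm.jf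
    exact ⟨_, _, _, _, hGm, om_le h1 h2,
      stb_loc hfg hfr hGm.cht hGm.jf m hGm.h_nm hne (om_stb Z Φ)⟩
  refine ⟨hne, ?_, hloc⟩
  -- finite generation
  obtain ⟨S, hS, hSm⟩ := qc {w : Z | ∃ (h u : Z) (J : L), w = h * u ∧ Om Z Φ ≤ locM Z h J ∧
      (u : L) * J ∈ Om Z Φ ∧ J ≠ 0} (by
    intro m hm
    obtain ⟨h, y, π, J, hGm, h1, u, hu, huJ⟩ := hloc m hm
    refine ⟨h * u, ⟨h, u, J, rfl, h1, huJ, hGm.jf.1⟩, fun h2 => ?_⟩
    rcases hm.isPrime.mem_or_mem h2 with h3 | h3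
    · exact hGm.h_nm h3
    · exact hu h3)
  choose! h u J hw hle huJ hJ0 using fun (w : Z) (hw : w ∈ S) => hS hw
  have heq : Om Z Φ = Submodule.span Z (S.image fun w => (u w : L) * J w : Finset L) := by
    apply le_antisymm
    · intro x hx
      refine mem_of_loc _ x fun m hm => ?_
      obtain ⟨w, hwS, hwm⟩ := hSm m hm
      obtain ⟨n, hn⟩ := hle w hwS hx
      refine ⟨u w * h w ^ n, fun h1 => hwm ?_, ?_⟩
      · rw [hw w hwS]
        rcases hm.isPrime.mem_or_mem h1 with h2 | h2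
        · exact Ideal.mul_mem_left _ _ h2
        · exact Ideal.mul_mem_right _ _ (hm.isPrime.mem_of_pow_mem _ h2)
      · have h1 : ((u w * h w ^ n : Z) : L) * x =
            (⟨_, hn⟩ : Z) • ((u w : L) * J w) := by
          rw [Algebra.smul_def]
          have h2 : algebraMap Z L ⟨_, hn⟩ = (h w : L) ^ n * ((J w)⁻¹ * x) := rfl
          rw [h2]
          push_cast
          have h3 := hJ0 w hwS
          field_simp
        rw [h1]
        refine Submodule.smul_mem _ _ (Submodule.subset_span ?_)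
        rw [Finset.coe_image]
        exact ⟨w, hwS, rfl⟩
    · rw [Submodule.span_le, Finset.coe_image]
      rintro _ ⟨w, hwS, rfl⟩
      exact huJ w hwS
  exact ⟨_, heq.symm⟩

end

end Pool.Agent.FrB
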