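import Pool.Agent.Lib.MP_305fdd_al.Fr.N.B.Closed

/-!
# MP_305fdd_al, F_r, nilpotence block, section B: the parameters of a chart are a regular sequence
-/

set_option autoImplicit false
set_option linter.unusedSectionVars false

namespace Pool.Agent.FrB

open Pool.Agent.F2Ch Pool.Agent.F2RF

section

variable {p : ℕ} [hp : Fact p.Prime] {L : Type} [Field L] [CharP L p] [Algebra (ZMod p) L]

/-- `x ∈ a * Z[1/h]` -/
def InI {Z : Subalgebra (ZMod p) L} (a : Ideal Z) (h : Z) (x : L) : Prop :=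
  ∃ n : ℕ, ∃ u ∈ a, (h : L) ^ n * x = (u : Z)

theorem ini_zero {Z : Subalgebra (ZMod p) L} {a : Ideal Z} {h : Z} : InI a h 0 :=
  ⟨0, 0, Ideal.zero_mem _, by simp⟩

theorem ini_add {Z : Subalgebra (ZMod p) L} {a : Ideal Z} {h : Z} {x x' : L}
    (hx : InI a h x) (hx' : InI a h x') : InI a h (x + x') := by
  obtain ⟨n, u, hu, h1⟩ := hx
  obtain ⟨n', u', hu', h1'⟩ := hx'
  refine ⟨n + n', h ^ n' * u + h ^ n * u', Ideal.add_mem _ (Ideal.mul_mem_left _ _ hu)
    (Ideal.mul_mem_left _ _ hu'), ?_⟩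
  push_cast
  rw [← h1, ← h1']
  ring

theorem ini_sum {Z : Subalgebra (ZMod p) L} {a : Ideal Z} {h : Z} {α : Type}
    (s : Finset α) (f : α → L) (hf : ∀ i ∈ s, InI a h (f i)) : InI a h (∑ i ∈ s, f i) := by
  classical
  induction s using Finset.induction_on with
  | empty => simpa using ini_zero
  | insert b s ha ih =>
    rw [Finset.sum_insert ha]
    exact ini_add (hf b (Finset.mem_insert_self _ _))
      (ih fun i hi => hf i (Finset.mem_insert_of_mem hi))

theorem ini_mono {Z : Subalgebra (ZMod p) L} {a b : Ideal Z} (hab : a ≤ b) {h : Z} {x : L}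
    (hx : InI a h x) : InI b h x := by
  obtain ⟨n, u, hu, h1⟩ := hx
  exact ⟨n, u, hab hu, h1⟩

/-- multiplication by an element of `Z[1/h]` -/
theorem ini_mul {Z : Subalgebra (ZMod p) L} {a : Ideal Z} {h : Z} {x w : L}
    (hx : InI a h x) (hw : InL Z (h : L) w) : InI a h (w * x) := by
  obtain ⟨n, u, hu, h1⟩ := hx
  obtain ⟨n', hn'⟩ := hw
  refine ⟨n + n', ⟨_, hn'⟩ * u, Ideal.mul_mem_left _ _ hu, ?_⟩
  have h2 : ((⟨_, hn'⟩ * u : Z) : L) = ((h : L) ^ n' * w) * u := rfl
  rw [h2, ← h1]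
  ring

theorem ini_pow {Z : Subalgebra (ZMod p) L} {a : Ideal Z} {h : Z} {x : L}
    (hx : InI a h x) : InI (a ^ p) h (x ^ p) := by
  obtain ⟨n, u, hu, h1⟩ := hx
  refine ⟨n * p, u ^ p, Ideal.pow_mem_pow hu p, ?_⟩
  push_cast
  rw [← h1]
  ring

theorem inl_pow {Z : Subalgebra (ZMod p) L} {h : Z} {x : L} (k : ℕ)
    (hx : InL Z (h : L) x) : InL Z (h : L) (x ^ k) := by
  obtain ⟨n, hn⟩ := hx
  refine ⟨n * k, ?_⟩
  rw [pow_mul, ← mul_pow]
  exact pow_mem hn k

theorem inl_mem {Z : Subalgebra (ZMod p) L} {h : Z} {x : L} (hx : x ∈ Z) : InL Z (h : L) x :=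
  ⟨0, by rwa [pow_zero, one_mul]⟩

theorem ini_mem {Z : Subalgebra (ZMod p) L} {a : Ideal Z} {h u : Z} (hu : u ∈ a) :
    InI a h (u : L) := ⟨0, u, hu, by simp⟩

theorem inl_top {Z : Subalgebra (ZMod p) L} {h : Z} {x : L} (hx : InL Z (h : L) x) :
    InI (⊤ : Ideal Z) h x := by
  obtain ⟨n, hn⟩ := hx
  exact ⟨n, ⟨_, hn⟩, trivial, rfl⟩

/-- inverting an element outside `m` modulo a power of `m` -/
theorem inv_pow_mod {Z : Type} [CommRing Z] (m : Ideal Z) [hm : m.IsMaximal] {h : Z} (hh : h ∉ m)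
    (n k : ℕ) : ∃ g : Z, 1 - h ^ n * g ∈ m ^ k := by
  have h3 : h ^ n ∉ m := fun h0 => hh (hm.isPrime.mem_of_pow_mem n h0)
  obtain ⟨g, hg⟩ : ∃ g : Z, 1 - h ^ n * g ∈ m := by
    obtain ⟨u, hu⟩ := Ideal.Quotient.exists_inv (I := m) (a := Ideal.Quotient.mk m (h ^ n)) (by
      rwa [Ne, Ideal.Quotient.eq_zero_iff_mem])
    obtain ⟨g, rfl⟩ := Ideal.Quotient.mk_surjective u
    refine ⟨g, ?_⟩
    rw [← Ideal.Quotient.eq_zero_iff_mem, map_sub, map_mul, map_one, hu, sub_self]
  obtain ⟨w, hw⟩ : h ^ n * g ∣ 1 - (1 - h ^ n * g) ^ k := by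
    have h3 := sub_dvd_pow_sub_pow (1 : Z) (1 - h ^ n * g) k
    rwa [one_pow, sub_sub_cancel] at h3
  refine ⟨g * w, ?_⟩
  have h5 : 1 - h ^ n * (g * w) = (1 - h ^ n * g) ^ k := by
    rw [← mul_assoc, ← hw]
    ring
  rw [h5]
  exact Ideal.pow_mem_pow hg k

/-- coordinates of `y i * x`, the exponent at `i` is positive -/
theorem pi_y_mul {N : ℕ} {y : Fin N → L} {π : (Fin N → Fin p) → L → L} (h : MB p y π)
    (a b : Fin N → Fin p) (i : Fin N) (hab : ∀ j, j ≠ i → a j = b j) (hi : (a i : ℕ) = b i + 1)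
    (x : L) : π a (y i * x) = π b x := by
  rw [(w7 p L N y π h).1 a, (w7 p L N y π h).1 b]
  have h1 : monY (p := p) y a = y i * monY (p := p) y b := by
    unfold monY
    rw [← Finset.mul_prod_erase _ _ (Finset.mem_univ i),
      ← Finset.mul_prod_erase Finset.univ (fun j => y j ^ (b j : ℕ)) (Finset.mem_univ i),
      hi, pow_succ', mul_assoc]
    congr 2
    exact Finset.prod_congr rfl fun j hj => by rw [hab j (Finset.ne_of_mem_erase hj)]
  have h2 : y i ≠ 0 := h.ne i
  rw [h1, mul_inv]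
  congr 1
  field_simp

/-- coordinates of `y i * x`, the exponent at `i` is zero -/
theorem pi_y_mul0 {N : ℕ} {y : Fin N → L} {π : (Fin N → Fin p) → L → L} (h : MB p y π)
    (a b : Fin N → Fin p) (i : Fin N) (hab : ∀ j, j ≠ i → a j = b j) (hi : (a i : ℕ) = 0)
    (hb : (b i : ℕ) = p - 1) (x : L) : π a (y i * x) = y i * π b x := by
  rw [(w7 p L N y π h).1 a, (w7 p L N y π h).1 b, ← pb_pow_mul h.pb]
  have h3 : y i ^ p * monY (p := p) y a = y i * monY (p := p) y b := by
    unfold monY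
    rw [← Finset.mul_prod_erase _ _ (Finset.mem_univ i),
      ← Finset.mul_prod_erase Finset.univ (fun j => y j ^ (b j : ℕ)) (Finset.mem_univ i),
      hi, hb, pow_zero, one_mul, ← mul_assoc, ← pow_succ', Nat.sub_add_cancel hp.out.one_le]
    congr 1
    exact Finset.prod_congr rfl fun j hj => by rw [hab j (Finset.ne_of_mem_erase hj)]
  have h2 : y i ≠ 0 := h.ne i
  have h4 : monY (p := p) y a ≠ 0 := Finset.prod_ne_zero_iff.2 fun j _ => pow_ne_zero _ (h.ne j)
  have h5 : monY (p := p) y b ≠ 0 := Finset.prod_ne_zero_iff.2 fun j _ => pow_ne_zero _ (h.ne j)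
  congr 1
  rw [← mul_assoc]
  rw [← mul_assoc]
  congr 1
  field_simp
  linear_combination -h3

/-- the ideal generated by the `y i`, `i ∈ S` -/
def yS {Z : Type} [CommRing Z] {N : ℕ} (y : Fin N → Z) (S : Set (Fin N)) : Ideal Z :=
  Ideal.span (y '' S)

/-- coordinates of elements of the ideal generated by some of the `y i` -/
theorem pi_yS {Z : Subalgebra (ZMod p) L} {N : ℕ} {h : Z} {y : Fin N → Z}
    {π : (Fin N → Fin p) → L → L} (C : Cht p Z (h : L) (fun i => (y i : L)) π)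
    (S : Set (Fin N)) (a : Fin N → Fin p) (ha : ∀ i ∈ S, (a i : ℕ) = 0) (x : L)
    (hx : InI (yS y S) h x) : InI (yS y S) h (π a x) := by
  have key : ∀ u : Z, u ∈ yS y S → ∀ z : Z, InI (yS y S) h (π a ((u : L) * z)) := by
    intro u hu
    unfold yS at hu
    induction hu using Submodule.span_induction with
    | mem u hu =>
      intro z
      obtain ⟨i, hi, rfl⟩ := hu
      rw [pi_y_mul0 C.mb a (Function.update a i ⟨p - 1, Nat.sub_lt hp.out.pos one_pos⟩) i
        (fun j hj => by rw [Function.update_of_ne hj]) (ha i hi) (by rw [Function.update_self]),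
        mul_comm]
      exact ini_mul (ini_mem (Ideal.subset_span ⟨i, hi, rfl⟩)) (cht_inl C _ (inl_mem z.2))
    | zero =>
      intro z
      simpa [pb_zero C.mb.pb] using ini_zero
    | add u v _ _ hu hv =>
      intro z
      push_cast
      rw [add_mul, pb_add C.mb.pb]
      exact ini_add (hu z) (hv z)
    | smul w u _ hu =>
      intro z
      have h1 : (((w • u : Z) : Z) : L) * z = (u : L) * ((w * z : Z) : Z) := by
        rw [smul_eq_mul]
        push_cast
        ring
      rw [h1]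
      exact hu _
  obtain ⟨n, u, hu, h1⟩ := hx
  have h2 : (h : L) ^ n * π a x = π a ((u : L) * ((h ^ (n * p - n) : Z) : Z)) := by
    push_cast
    rw [← h1, mul_comm ((h : L) ^ n * x), ← mul_assoc, ← pow_add, ← pb_pow_mul C.mb.pb, ← pow_mul]
    congr 3
    have : n ≤ n * p := Nat.le_mul_of_pos_right n hp.out.pos
    omega
  obtain ⟨n', u', hu', h3⟩ := key _ hu (h ^ (n * p - n))
  refine ⟨n' + n, u', hu', ?_⟩
  rw [← h3, ← h2]
  ring

/-- the main step -/
theorem reg_step {Z : Subalgebra (ZMod p) L} {N : ℕ} {h : Z} {y : Fin N → Z}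
    {π : (Fin N → Fin p) → L → L} (C : Cht p Z (h : L) (fun i => (y i : L)) π)
    (m : Ideal Z) (S : Set (Fin N)) (j : Fin N) (hj : j ∉ S) (hjm : y j ∈ m) (k : ℕ) :
    ∀ x : L, InL Z (h : L) x → InI (yS y S) h ((y j : L) * x) → InI (yS y S ⊔ m ^ k) h x := by
  classical
  induction k with
  | zero =>
    intro x hx _
    rw [pow_zero, Ideal.one_eq_top, sup_top_eq]
    exact inl_top hx
  | succ k ih =>
    intro x hx hyx
    rw [← C.mb.pb.repr x]
    refine ini_sum _ _ fun b _ => ?_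
    have hyb : ∀ i : Fin N, (b i : ℕ) ≠ 0 →
        ∃ w : Z, monY (p := p) (fun i => (y i : L)) b = (w : L) * y i := by
      intro i hi
      refine ⟨(∏ j ∈ Finset.univ.erase i, y j ^ (b j : ℕ)) * y i ^ ((b i : ℕ) - 1), ?_⟩
      unfold monY
      rw [← Finset.mul_prod_erase _ _ (Finset.mem_univ i)]
      push_cast
      have h1 : ((y i : L)) ^ (b i : ℕ) = (y i : L) ^ ((b i : ℕ) - 1) * y i := by
        rw [← pow_succ, Nat.sub_add_cancel (Nat.one_le_iff_ne_zero.2 hi)]
      rw [h1]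
      ring
    have hmon : monY (p := p) (fun i => (y i : L)) b ∈ Z :=
      prod_mem fun i _ => pow_mem (y i).2 _
    by_cases hS : ∃ i ∈ S, (b i : ℕ) ≠ 0
    · obtain ⟨i, hi, hbi⟩ := hS
      obtain ⟨w, hw⟩ := hyb i hbi
      rw [hw, ← mul_assoc]
      have hyi : y i ∈ yS y S := Ideal.subset_span ⟨i, hi, rfl⟩
      refine ini_mul (ini_mono le_sup_left (ini_mem hyi)) ?_
      obtain ⟨n, hn⟩ := inl_pow p (cht_inl C b hx)
      exact ⟨n, by rw [← mul_assoc]; exact mul_mem hn w.2⟩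
    · push Not at hS
      by_cases hbj : (b j : ℕ) + 1 < p
      · have h1 := pi_y_mul C.mb (Function.update b j ⟨(b j : ℕ) + 1, hbj⟩) b j
          (fun i hi => by rw [Function.update_of_ne hi]) (by rw [Function.update_self]) x
        have h2 := pi_yS C S (Function.update b j ⟨(b j : ℕ) + 1, hbj⟩) (fun i hi => by
          have hij : i ≠ j := fun h0 => hj (by rw [← h0]; exact hi)
          rw [Function.update_of_ne hij]
          exact hS i hi) _ hyx
        rw [h1] at h2
        rw [mul_comm]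
        refine ini_mul (ini_mono le_sup_left ?_) (inl_mem hmon)
        have h3 : π b x ^ p = π b x ^ (p - 1) * π b x := by
          rw [← pow_succ, Nat.sub_add_cancel hp.out.one_le]
        rw [h3]
        exact ini_mul h2 (inl_pow _ (cht_inl C b hx))
      · have hbj' : (b j : ℕ) = p - 1 := by
          have := (b j).2
          omega
        have h1 := pi_y_mul0 C.mb (Function.update b j ⟨0, hp.out.pos⟩) b j
          (fun i hi => by rw [Function.update_of_ne hi]) (by rw [Function.update_self]) hbj' x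
        have h2 := pi_yS C S (Function.update b j ⟨0, hp.out.pos⟩) (fun i hi => by
          have hij : i ≠ j := fun h0 => hj (by rw [← h0]; exact hi)
          rw [Function.update_of_ne hij]
          exact hS i hi) _ hyx
        rw [h1] at h2
        obtain ⟨n, u, hu, h3⟩ := ih _ (cht_inl C b hx) h2
        obtain ⟨w, hw⟩ := hyb j (by have := hp.out.one_lt; omega)
        refine ⟨n * p, u ^ p * (w * y j), ?_, ?_⟩
        · obtain ⟨d, hd, μ, hμ, hdμ⟩ := Submodule.mem_sup.1 hu
          have hcp : CharP Z p := charp_sub Z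
          rw [← hdμ, add_pow_char]
          have h4 : (d ^ p + μ ^ p) * (w * y j) = d ^ p * (w * y j) + (μ ^ p * y j) * w := by ring
          rw [h4]
          refine Ideal.add_mem _ (Ideal.mem_sup_left ?_) (Ideal.mem_sup_right ?_)
          · exact Ideal.mul_mem_right _ _ (Ideal.pow_mem_of_mem _ hd _ hp.out.pos)
          · refine Ideal.mul_mem_right _ _ ?_
            rw [pow_succ]
            exact Ideal.mul_mem_mul (Ideal.pow_mem_of_mem _ hμ _ hp.out.pos) hjm
        · rw [hw]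
          push_cast
          rw [← h3]
          ring

/-- THE PARAMETERS ARE A REGULAR SEQUENCE. -/
theorem reg_seq {Z : Subalgebra (ZMod p) L} (hfg : Z.FG) {N : ℕ} {h : Z} {y : Fin N → Z}
    {π : (Fin N → Fin p) → L → L} (C : Cht p Z (h : L) (fun i => (y i : L)) π)
    (m : Ideal Z) [hm : m.IsMaximal] (hh : h ∉ m) (S : Set (Fin N)) (j : Fin N) (hj : j ∉ S)
    (hjm : y j ∈ m) (z : Z) (hz : y j * z ∈ yS y S) : ∃ u : Z, u ∉ m ∧ u * z ∈ yS y S := by
  have hft : Algebra.FiniteType (ZMod p) Z := ⟨(Subalgebra.fg_top Z).2 hfg⟩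
  have hno : IsNoetherianRing Z := Algebra.FiniteType.isNoetherianRing (ZMod p) Z
  have h1 : ∀ k : ℕ, z ∈ yS y S ⊔ m ^ k := by
    intro k
    obtain ⟨n, u, hu, h1⟩ := reg_step C m S j hj hjm k (z : L) (inl_mem z.2)
      (by
        have h2 := ini_mem (h := h) hz
        push_cast at h2
        exact h2)
    obtain ⟨g, hg⟩ := inv_pow_mod m hh n k
    have h2 : h ^ n * z = u := Subtype.ext (by push_cast; exact h1)
    have h3 : z = g * (h ^ n * z) + (1 - h ^ n * g) * z := by ring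
    rw [h3, h2]
    exact Ideal.add_mem _ (Ideal.mul_mem_left _ _ hu)
      (Ideal.mul_mem_right _ _ (Ideal.mem_sup_right hg))
  have h2 : (Submodule.Quotient.mk z : Z ⧸ yS y S) ∈
      (⨅ i : ℕ, m ^ i • ⊤ : Submodule Z (Z ⧸ yS y S)) := by
    rw [Submodule.mem_iInf]
    intro k
    obtain ⟨d, hd, μ, hμ, hdμ⟩ := Submodule.mem_sup.1 (h1 k)
    have h3 : (Submodule.Quotient.mk z : Z ⧸ yS y S) = μ • Submodule.Quotient.mk 1 := by
      rw [← Submodule.Quotient.mk_smul, ← hdμ, Submodule.Quotient.mk_add,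
        (Submodule.Quotient.mk_eq_zero _).2 hd, zero_add, smul_eq_mul, mul_one]
    rw [h3]
    exact Submodule.smul_mem_smul hμ trivial
  obtain ⟨r, hr⟩ := (Ideal.mem_iInf_smul_pow_eq_bot_iff m _).1 h2
  refine ⟨1 - r, fun h3 => ?_, ?_⟩
  · have h4 := Ideal.add_mem _ h3 r.2
    rw [sub_add_cancel] at h4
    exact hm.ne_top ((Ideal.eq_top_iff_one m).2 h4)
  · rw [← Submodule.Quotient.mk_smul, ← sub_eq_zero, ← Submodule.Quotient.mk_sub,
      Submodule.Quotient.mk_eq_zero] at hr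
    have h4 : (1 - (r : Z)) * z = -((r : Z) • z - z) := by
      rw [smul_eq_mul]
      ring
    rw [h4]
    exact Submodule.neg_mem _ hr

end

end Pool.Agent.FrB
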