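import Pool.Agent.Lib.MP_305fdd_al.Fr.N.B.Koz
import Pool.Agent.Lib.MP_305fdd_al.Fr.N.B.RegSeq
import Pool.Agent.Lib.MP_305fdd_al.Fr.N.B.Om

/-!
# MP_305fdd_al, F_r, nilpotence block, section B: the smallest stable submodule at finitely many
closed points with common local parameters
-/

set_option autoImplicit false
set_option linter.unusedSectionVars false

namespace Pool.Agent.FrB

open Pool.Agent.F2Ch Pool.Agent.F2RF Pool.Agent.FrN Pool.Agent.FrNA

section

variable {p : ℕ} [hp : Fact p.Prime] {L : Type} [Field L] [CharP L p] [Algebra (ZMod p) L]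

/-- local-global principle for finitely many maximal ideals -/
theorem lg {Z : Type} [CommRing Z] (A : Ideal Z) (T : Finset (Ideal Z))
    (hT : ∀ m ∈ T, m.IsMaximal) (h : ∀ m ∈ T, ∃ u ∈ A, u ∉ m) : ∃ b ∈ A, b - 1 ∈ T.inf id := by
  have h1 : A ⊔ T.inf id = ⊤ := by
    by_contra hne
    obtain ⟨m, hm, hle⟩ := Ideal.exists_le_maximal _ hne
    have h2 : T.inf id ≤ m := le_sup_right.trans hle
    obtain ⟨m', hm', h3⟩ := (Ideal.IsPrime.inf_le' hm.isPrime).1 h2
    have h4 : m' = m := (hT m' hm').eq_of_le hm.ne_top h3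
    obtain ⟨u, hu, h5⟩ := h m' hm'
    rw [h4] at h5
    exact h5 (hle (Ideal.mem_sup_left hu))
  obtain ⟨b, hb, c, hc, hbc⟩ := Submodule.mem_sup.1 ((Ideal.eq_top_iff_one _).1 h1)
  refine ⟨b, hb, ?_⟩
  have h2 : b - 1 = -c := by rw [← hbc]; ring
  rw [h2]
  exact Ideal.neg_mem_iff _ |>.2 hc

/-- local data at the maximal ideal `m` -/
structure LD1 {Z : Subalgebra (ZMod p) L} {N : ℕ} (M : Submodule Z L) (y : Fin N → Z)
    (π : (Fin N → Fin p) → L → L) (JJ : L) (m : Ideal Z) (r h v : Z) : Prop where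
  max : m.IsMaximal
  cht : Cht p Z (r : L) (fun i => (y i : L)) π
  r_nm : r ∉ m
  h_nm : h ∉ m
  h_gen : ∀ z ∈ m, h * z ∈ yS y Set.univ
  v_nm : v ∉ m
  v_mem : (v : L) * JJ ∈ M
  le : M ≤ locM Z r JJ
  y_m : ∀ i, y i ∈ m

namespace LD1

variable {Z : Subalgebra (ZMod p) L} {N : ℕ} {M : Submodule Z L} {y : Fin N → Z}
    {π : (Fin N → Fin p) → L → L} {JJ : L} {m : Ideal Z} {r h v : Z}

theorem rep (D : LD1 M y π JJ m r h v) (hJ : JJ ≠ 0) (x : M) :
    ∃ (n : ℕ) (z : Z), (r : L) ^ n * x = z * JJ := by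
  obtain ⟨n, hn⟩ := D.le x.2
  refine ⟨n, ⟨_, hn⟩, ?_⟩
  show (r : L) ^ n * x = (r : L) ^ n * (JJ⁻¹ * x) * JJ
  field_simp

theorem up (D : LD1 M y π JJ m r h v) {I : Ideal Z} (x : M) (n : ℕ) (z u : Z)
    (h1 : (r : L) ^ n * x = z * JJ) (hu : u * z ∈ I) :
    (v * u * r ^ n) • x ∈ I • (⊤ : Submodule Z M) := by
  have h2 : (v * u * r ^ n) • x = (u * z) • (⟨(v : L) * JJ, D.v_mem⟩ : M) := by
    apply Subtype.ext
    show ((v * u * r ^ n : Z) : L) * (x : L) = ((u * z : Z) : L) * ((v : L) * JJ)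
    push_cast
    rw [mul_assoc, h1]
    ring
  rw [h2]
  exact Submodule.smul_mem_smul hu trivial

theorem up_nm (D : LD1 M y π JJ m r h v) {n : ℕ} {u : Z} (hu : u ∉ m) : v * u * r ^ n ∉ m := by
  have hm := D.max.isPrime
  intro h1
  rcases hm.mem_or_mem h1 with h2 | h2
  · rcases hm.mem_or_mem h2 with h3 | h3
    · exact D.v_nm h3
    · exact hu h3
  · exact D.r_nm (hm.mem_of_pow_mem _ h2)

theorem down (D : LD1 M y π JJ m r h v) (hJ : JJ ≠ 0) {I : Ideal Z} {x : M}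
    (hx : x ∈ I • (⊤ : Submodule Z M)) :
    ∃ (n : ℕ) (z : Z), z ∈ I ∧ (r : L) ^ n * x = z * JJ := by
  refine Submodule.smul_induction_on hx ?_ ?_
  · intro i hi x _
    obtain ⟨n, z, h1⟩ := D.rep hJ x
    refine ⟨n, i * z, Ideal.mul_mem_right _ _ hi, ?_⟩
    show (r : L) ^ n * ((i : L) * (x : L)) = ((i * z : Z) : L) * JJ
    push_cast
    rw [mul_assoc, ← h1]
    ring
  · rintro x x' ⟨n, z, hz, h1⟩ ⟨n', z', hz', h1'⟩
    refine ⟨n + n', r ^ n' * z + r ^ n * z', Ideal.add_mem _ (Ideal.mul_mem_left _ _ hz)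
      (Ideal.mul_mem_left _ _ hz'), ?_⟩
    push_cast
    have h2 : ((r : L) ^ n' * z + (r : L) ^ n * z') * JJ =
        (r : L) ^ n' * (z * JJ) + (r : L) ^ n * (z' * JJ) := by ring
    rw [h2, ← h1, ← h1']
    ring

theorem span_le (D : LD1 M y π JJ m r h v) (S : Set (Fin N)) : yS y S ≤ m := by
  unfold yS
  rw [Ideal.span_le]
  rintro _ ⟨i, -, rfl⟩
  exact D.y_m i

end LD1

/-- data at the finite set `T` of maximal ideals -/
structure LDT {Z : Subalgebra (ZMod p) L} {N : ℕ} (M : Submodule Z L) (y : Fin N → Z)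
    (π : (Fin N → Fin p) → L → L) (JJ : L) (T : Finset (Ideal Z)) : Prop where
  ne : JJ ≠ 0
  loc : ∀ m ∈ T, ∃ r h v : Z, LD1 M y π JJ m r h v

namespace LDT

variable {Z : Subalgebra (ZMod p) L} {N : ℕ} {M : Submodule Z L} {y : Fin N → Z}
    {π : (Fin N → Fin p) → L → L} {JJ : L} {T : Finset (Ideal Z)}

theorem max (D : LDT M y π JJ T) : ∀ m ∈ T, m.IsMaximal := fun m hm => by
  obtain ⟨r, h, v, D1⟩ := D.loc m hm
  exact D1.max

/-- the annihilator modulo a submodule -/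
def ann (Q : Submodule Z M) (x : M) : Ideal Z where
  carrier := {b | b • x ∈ Q}
  zero_mem' := by
    show (0 : Z) • x ∈ Q
    rw [zero_smul]
    exact Q.zero_mem
  add_mem' := by
    intro a b ha hb
    show (a + b) • x ∈ Q
    rw [add_smul]
    exact Q.add_mem ha hb
  smul_mem' := by
    intro c a ha
    show (c * a) • x ∈ Q
    rw [mul_smul]
    exact Q.smul_mem _ ha

theorem glob (D : LDT M y π JJ T) (Q : Submodule Z M) (x : M)
    (h : ∀ m ∈ T, ∃ u : Z, u ∉ m ∧ u • x ∈ Q) : ∃ b : Z, b - 1 ∈ T.inf id ∧ b • x ∈ Q := by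
  obtain ⟨b, hb, h1⟩ := lg (ann Q x) T D.max fun m hm => by
    obtain ⟨u, hu, h2⟩ := h m hm
    exact ⟨u, h2, hu⟩
  exact ⟨b, h1, hb⟩

theorem rg (hfg : Z.FG) (D : LDT M y π JJ T) (S : Finset (Fin N)) (j : Fin N) (hj : j ∉ S) (x : M)
    (hx : y j • x ∈ Ideal.span (y '' (S : Set (Fin N))) • (⊤ : Submodule Z M)) :
    ∃ b : Z, b - 1 ∈ T.inf id ∧ b • x ∈ Ideal.span (y '' (S : Set (Fin N))) • (⊤ : Submodule Z M) := by
  refine D.glob _ x fun m hm => ?_
  obtain ⟨r, h, v, D1⟩ := D.loc m hm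
  have := D1.max
  obtain ⟨n, z, hz, h1⟩ := D1.down D.ne hx
  obtain ⟨n', z', h2⟩ := D1.rep D.ne x
  have h3 : y j * (r ^ n * z') ∈ yS y (S : Set (Fin N)) := by
    have h4 : y j * (r ^ n * z') = r ^ n' * z := by
      apply Subtype.ext
      push_cast
      apply mul_right_cancel₀ D.ne
      have h5 : (r : L) ^ n * ((y j : L) * (x : L)) = z * JJ := h1
      have h6 : (y j : L) * ((r : L) ^ n * z') * JJ = (y j : L) * (r : L) ^ n * (z' * JJ) := by ring
      rw [h6, ← h2, mul_assoc ((r : L) ^ n'), ← h5]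
      ring
    rw [h4]
    exact Ideal.mul_mem_left _ _ hz
  obtain ⟨u, hu, h4⟩ := reg_seq hfg D1.cht m D1.r_nm (S : Set (Fin N)) j (by simpa using hj)
    (D1.y_m j) _ h3
  refine ⟨v * u * r ^ (n + n'), D1.up_nm hu, ?_⟩
  refine D1.up x (n + n') (r ^ n * z') u ?_ h4
  push_cast
  rw [pow_add, mul_assoc, h2]
  ring

/-- an element which is a generator at all `m ∈ T` -/
theorem gen (D : LDT M y π JJ T) : ∃ w : Z, w - 1 ∈ T.inf id ∧ (w : L) * JJ ∈ M := by
  let A : Ideal Z :=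
    { carrier := {z | (z : L) * JJ ∈ M}
      add_mem' := by
        intro a b ha hb
        show ((a + b : Z) : L) * JJ ∈ M
        push_cast
        rw [add_mul]
        exact M.add_mem ha hb
      zero_mem' := by
        show ((0 : Z) : L) * JJ ∈ M
        simp
      smul_mem' := by
        intro c a ha
        show ((c * a : Z) : L) * JJ ∈ M
        have h1 : ((c * a : Z) : L) * JJ = c • ((a : L) * JJ) := by
          rw [Algebra.smul_def]
          have h2 : algebraMap Z L c = (c : L) := rfl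
          rw [h2]
          push_cast
          ring
        rw [h1]
        exact M.smul_mem _ ha }
  obtain ⟨b, hb, h1⟩ := lg A T D.max fun m hm => by
    obtain ⟨r, h, v, D1⟩ := D.loc m hm
    exact ⟨v, D1.v_mem, D1.v_nm⟩
  exact ⟨b, h1, hb⟩

theorem mul_J (D : LDT M y π JJ T) (x : M) (j : Z) (hj : j ∈ T.inf id) :
    ∃ b : Z, b - 1 ∈ T.inf id ∧ b • (j • x) ∈ yS y Set.univ • (⊤ : Submodule Z M) := by
  refine D.glob _ _ fun m hm => ?_
  obtain ⟨r, h, v, D1⟩ := D.loc m hm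
  obtain ⟨n, z, h1⟩ := D1.rep D.ne x
  have hjm : j ∈ m := (Finset.inf_le hm : T.inf id ≤ id m) hj
  refine ⟨v * h * r ^ n, D1.up_nm D1.h_nm, D1.up _ n (j * z) h ?_
    (D1.h_gen _ (Ideal.mul_mem_right _ _ hjm))⟩
  show (r : L) ^ n * ((j : L) * (x : L)) = ((j * z : Z) : L) * JJ
  push_cast
  rw [mul_assoc, ← h1]
  ring

theorem surj (D : LDT M y π JJ T) {w : Z} (hw : w - 1 ∈ T.inf id) (hwM : (w : L) * JJ ∈ M)
    (x : M) : ∃ b z : Z, b - 1 ∈ T.inf id ∧ b • x = z • (⟨(w : L) * JJ, hwM⟩ : M) := by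
  obtain ⟨b, hb, h1⟩ := D.glob (Submodule.span Z {(⟨(w : L) * JJ, hwM⟩ : M)}) x fun m hm => by
    obtain ⟨r, h, v, D1⟩ := D.loc m hm
    have hm' := D1.max.isPrime
    obtain ⟨n, z, h1⟩ := D1.rep D.ne x
    have hwm : w - 1 ∈ m := (Finset.inf_le hm : T.inf id ≤ id m) hw
    refine ⟨w * r ^ n, fun h2 => ?_, ?_⟩
    · rcases hm'.mem_or_mem h2 with h3 | h3
      · have h4 := Ideal.sub_mem _ h3 hwm
        rw [sub_sub_cancel] at h4
        exact D1.max.ne_top ((Ideal.eq_top_iff_one m).2 h4)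
      · exact D1.r_nm (hm'.mem_of_pow_mem _ h3)
    · rw [Submodule.mem_span_singleton]
      refine ⟨z, Subtype.ext ?_⟩
      show (z : L) * ((w : L) * JJ) = ((w * r ^ n : Z) : L) * (x : L)
      push_cast
      rw [mul_assoc, h1]
      ring
  obtain ⟨z, hz⟩ := Submodule.mem_span_singleton.1 h1
  exact ⟨b, z, hb, hz.symm⟩

theorem ker (D : LDT M y π JJ T) {w : Z} (hw : w - 1 ∈ T.inf id) (hwM : (w : L) * JJ ∈ M)
    (b z : Z) (hb : b - 1 ∈ T.inf id)
    (h : b • (z • (⟨(w : L) * JJ, hwM⟩ : M)) ∈ yS y Set.univ • (⊤ : Submodule Z M)) :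
    z ∈ T.inf id := by
  rw [Submodule.mem_finsetInf]
  intro m hm
  show z ∈ m
  obtain ⟨r, h', v, D1⟩ := D.loc m hm
  have hm' := D1.max.isPrime
  have hnm : ∀ a : Z, a - 1 ∈ T.inf id → a ∉ m := by
    intro a ha h1
    have h2 : a - 1 ∈ m := (Finset.inf_le hm : T.inf id ≤ id m) ha
    have h4 := Ideal.sub_mem _ h1 h2
    rw [sub_sub_cancel] at h4
    exact D1.max.ne_top ((Ideal.eq_top_iff_one m).2 h4)
  obtain ⟨n, z', hz', h1⟩ := D1.down D.ne h
  have h2 : r ^ n * (b * (z * w)) = z' := by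
    apply Subtype.ext
    apply mul_right_cancel₀ D.ne
    rw [← h1]
    show ((r ^ n * (b * (z * w)) : Z) : L) * JJ = (r : L) ^ n * ((b : L) * ((z : L) * ((w : L) * JJ)))
    push_cast
    ring
  have h3 : r ^ n * (b * (z * w)) ∈ m := by
    rw [h2]
    exact D1.span_le _ hz'
  rcases hm'.mem_or_mem h3 with h4 | h4
  · exact absurd (hm'.mem_of_pow_mem _ h4) D1.r_nm
  · rcases hm'.mem_or_mem h4 with h5 | h5
    · exact absurd h5 (hnm b hb)
    · rcases hm'.mem_or_mem h5 with h6 | h6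
      · exact h6
      · exact absurd h6 (hnm w hw)

/-- the last coordinate of the product with the `(p - 1)`-st power of the product of the `y i` -/
theorem top_mul {y : Fin N → L} (hb : MB p y π) (f : L) :
    π (jt p N) ((∏ i, y i) ^ (p - 1) * f) = π j0 f := by
  rw [(w7 p L N y π hb).1]
  have h1 : monY (p := p) y (jt p N) = (∏ i, y i) ^ (p - 1) := by
    unfold monY
    rw [← Finset.prod_pow]
    rfl
  have h2 : (∏ i, y i) ^ (p - 1) ≠ 0 := pow_ne_zero _ (Finset.prod_ne_zero_iff.2 fun i _ => hb.ne i)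
  rw [h1, inv_mul_cancel_left₀ h2]

theorem eqv (D : LDT M y π JJ T) {Φ : L → L} (hΦ : JForm π JJ Φ) {w : Z}
    (hw : w - 1 ∈ T.inf id) (hwM : (w : L) * JJ ∈ M) (x : M)
    (hx : (x : L) = Φ ((∏ i, (y i : L)) ^ (p - 1) * ((w : L) * JJ))) :
    ∃ b : Z, b - 1 ∈ T.inf id ∧
      b • (x - (⟨(w : L) * JJ, hwM⟩ : M)) ∈ yS y Set.univ • (⊤ : Submodule Z M) := by
  refine D.glob _ _ fun m hm => ?_
  obtain ⟨r, h, v, D1⟩ := D.loc m hm
  have hm' := D1.max.isPrime
  have hwm : w - 1 ∈ m := (Finset.inf_le hm : T.inf id ≤ id m) hw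
  have h1 : (x : L) = π j0 (w : L) * JJ := by
    rw [hx, hΦ.2]
    have h2 : JJ⁻¹ * ((∏ i, (y i : L)) ^ (p - 1) * ((w : L) * JJ)) =
        (∏ i, (y i : L)) ^ (p - 1) * (w : L) := by
      have := D.ne
      field_simp
    rw [h2, top_mul D1.cht.mb, mul_comm]
  have hst := fun a => D1.cht.st a (w : L) w.2
  have h3 : r ^ p * w = ∑ a, (⟨_, hst a⟩ : Z) ^ p * monY (p := p) y a := by
    apply Subtype.ext
    rw [AddSubmonoidClass.coe_finsetSum]
    have h4 := D1.cht.mb.pb.repr (w : L)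
    have h5 : ((r ^ p * w : Z) : L) = (r : L) ^ p * (w : L) := by push_cast; rfl
    rw [h5]
    conv_lhs => rw [← h4]
    rw [Finset.mul_sum]
    refine Finset.sum_congr rfl fun a _ => ?_
    have h6 : ((monY (p := p) y a : Z) : L) = monY (p := p) (fun i => (y i : L)) a := by
      simp [monY]
    rw [MulMemClass.coe_mul, SubmonoidClass.coe_pow, h6]
    show (r : L) ^ p * (π a (w : L) ^ p * _) = ((r : L) * π a (w : L)) ^ p * _
    rw [mul_pow, mul_assoc]
  have h4 : r ^ p * w - (⟨_, hst j0⟩ : Z) ^ p ∈ m := by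
    classical
    have h5 : monY (p := p) y (j0 : Fin N → Fin p) = 1 := by
      unfold monY
      exact Finset.prod_eq_one fun i _ => pow_zero _
    rw [h3, ← Finset.add_sum_erase _ _ (Finset.mem_univ (j0 : Fin N → Fin p)), h5, mul_one,
      add_sub_cancel_left]
    refine Ideal.sum_mem _ fun a ha => Ideal.mul_mem_left _ _ ?_
    have h6 : ∃ i, (a i : ℕ) ≠ 0 := by
      by_contra hcon
      push Not at hcon
      exact Finset.ne_of_mem_erase ha (funext fun i => Fin.ext (hcon i))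
    obtain ⟨i, hi⟩ := h6
    unfold monY
    rw [← Finset.mul_prod_erase _ _ (Finset.mem_univ i)]
    exact Ideal.mul_mem_right _ _ (Ideal.pow_mem_of_mem _ (D1.y_m i) _ (Nat.pos_of_ne_zero hi))
  have h5 : (⟨_, hst j0⟩ : Z) - r * w ∈ m := by
    have hcp : CharP Z p := charp_sub Z
    refine hm'.mem_of_pow_mem p ?_
    rw [sub_pow_char, mul_pow]
    have h6 : (⟨_, hst j0⟩ : Z) ^ p - r ^ p * w ^ p =
        -(r ^ p * w - (⟨_, hst j0⟩ : Z) ^ p) - r ^ p * w * (w ^ (p - 1) - 1) := by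
      have h7 : w ^ p = w * w ^ (p - 1) := by
        rw [← pow_succ', Nat.sub_add_cancel hp.out.one_le]
      rw [h7]
      ring
    rw [h6]
    refine Ideal.sub_mem _ (Ideal.neg_mem_iff _ |>.2 h4) (Ideal.mul_mem_left _ _ ?_)
    obtain ⟨c, hc⟩ := sub_dvd_pow_sub_pow w 1 (p - 1)
    rw [one_pow] at hc
    rw [hc]
    exact Ideal.mul_mem_right _ _ hwm
  refine ⟨v * h * r ^ 1, D1.up_nm D1.h_nm, D1.up _ 1 ((⟨_, hst j0⟩ : Z) - r * w) h ?_
    (D1.h_gen _ h5)⟩
  rw [pow_one]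
  show (r : L) * ((x : L) - (w : L) * JJ) = (((r : L) * π j0 (w : L)) - ((r * w : Z) : L)) * JJ
  rw [h1]
  push_cast
  ring

end LDT

end

end Pool.Agent.FrB
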