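import Pool.Agent.Lib.MP_305fdd_al.Fr.N.A.Stm

/-!
# MP_305fdd_al, F_r, nilpotence block, section B: quotients by a sequence which is regular at `V(J)`
-/

set_option autoImplicit false

namespace Pool.Agent.FrB

open Pool.Agent.FrN Pool.Agent.FrNA

section

variable {p : ℕ} [hp : Fact p.Prime] {R : Type} [CommRing R] [Algebra (ZMod p) R]

instance qt_finite (X : CMod p R) [Module.Finite R X.M] (y : R) : Module.Finite R (X.qt y).M :=
  inferInstanceAs (Module.Finite R (X.M ⧸ LinearMap.range (LinearMap.lsmul R X.M y)))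

theorem kr_finite [IsNoetherianRing R] (X : CMod p R) [Module.Finite R X.M] (y : R) :
    Module.Finite R (X.kr y).M :=
  inferInstanceAs (Module.Finite R ↥(LinearMap.ker (LinearMap.lsmul R X.M y)))

/-- `X` is the quotient of `Y` by the submodule generated by the `y i`, `i ∈ S`, with the operator induced
by the operator of `Y` -/
structure Qd {N : ℕ} (Y : CMod p R) (y : Fin N → R) (S : Finset (Fin N)) (X : CMod p R)
    (q : Y.M →ₗ[R] X.M) : Prop where
  surj : Function.Surjective q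
  ker : ∀ m, q m = 0 ↔ m ∈ Ideal.span (y '' (S : Set (Fin N))) • (⊤ : Submodule R Y.M)
  eqv : ∀ m, X.C (q m) = q (Y.C ((∏ i ∈ S, y i) ^ (p - 1) • m))

theorem qd_empty {N : ℕ} (Y : CMod p R) (y : Fin N → R) : Qd Y y ∅ Y LinearMap.id := by
  refine ⟨Function.surjective_id, fun m => ?_, fun m => ?_⟩
  · simp
  · simp

theorem mem_insert {N : ℕ} {M : Type} [AddCommGroup M] [Module R M] (y : Fin N → R)
    (S : Finset (Fin N)) (j : Fin N) (m : M) :
    m ∈ Ideal.span (y '' ((insert j S : Finset (Fin N)) : Set (Fin N))) • (⊤ : Submodule R M) ↔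
      ∃ c : M, m - y j • c ∈ Ideal.span (y '' (S : Set (Fin N))) • (⊤ : Submodule R M) := by
  rw [Finset.coe_insert, Set.image_insert_eq, Ideal.span_insert, Submodule.sup_smul,
    Submodule.mem_sup]
  constructor
  · rintro ⟨a, ha, b, hb, rfl⟩
    rw [Submodule.ideal_span_singleton_smul] at ha
    obtain ⟨c, -, rfl⟩ := (Submodule.mem_smul_pointwise_iff_exists _ _ _).1 ha
    refine ⟨c, ?_⟩
    rwa [add_sub_cancel_left]
  · rintro ⟨c, hc⟩
    refine ⟨y j • c, ?_, _, hc, by rw [add_sub_cancel]⟩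
    exact Submodule.smul_mem_smul (Ideal.mem_span_singleton_self _) trivial

theorem qd_step {N : ℕ} {Y : CMod p R} {y : Fin N → R} {S : Finset (Fin N)} {X : CMod p R}
    {q : Y.M →ₗ[R] X.M} (h : Qd Y y S X q) {j : Fin N} (hj : j ∉ S) :
    Qd Y y (insert j S) (X.qt (y j)) (X.proj (y j) ∘ₗ q) := by
  refine ⟨?_, fun m => ?_, fun m => ?_⟩
  · rw [LinearMap.coe_comp]
    exact (Submodule.mkQ_surjective _).comp h.surj
  · rw [mem_insert, LinearMap.comp_apply]
    have h1 : X.proj (y j) (q m) = 0 ↔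
        q m ∈ LinearMap.range (LinearMap.lsmul R X.M (y j)) := Submodule.Quotient.mk_eq_zero _
    rw [h1, LinearMap.mem_range]
    constructor
    · rintro ⟨c, hc⟩
      obtain ⟨c, rfl⟩ := h.surj c
      refine ⟨c, (h.ker _).1 ?_⟩
      rw [map_sub, map_smul, ← hc, LinearMap.lsmul_apply, sub_self]
    · rintro ⟨c, hc⟩
      refine ⟨q c, ?_⟩
      have h2 := (h.ker _).2 hc
      rw [map_sub, map_smul, sub_eq_zero] at h2
      rw [LinearMap.lsmul_apply, h2]
  · rw [LinearMap.comp_apply, CMod.proj_C, ← map_smul, h.eqv, LinearMap.comp_apply,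
      Finset.prod_insert hj, smul_smul, mul_pow, mul_comm]

/-- regularity of the sequence `y` on `Y` at `V(J)` -/
def Rg {N : ℕ} (Y : CMod p R) (y : Fin N → R) (J : Ideal R) : Prop :=
  ∀ (S : Finset (Fin N)) (j : Fin N), j ∉ S → ∀ m : Y.M,
    y j • m ∈ Ideal.span (y '' (S : Set (Fin N))) • (⊤ : Submodule R Y.M) →
    ∃ b : R, b - 1 ∈ J ∧ b • m ∈ Ideal.span (y '' (S : Set (Fin N))) • (⊤ : Submodule R Y.M)

theorem ns_kr {N : ℕ} {Y : CMod p R} {y : Fin N → R} {J : Ideal R} (hR : Rg Y y J)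
    {S : Finset (Fin N)} {X : CMod p R} {q : Y.M →ₗ[R] X.M} (h : Qd Y y S X q) {j : Fin N}
    (hj : j ∉ S) : NS J (X.kr (y j)) := by
  rintro ⟨x, hx⟩
  obtain ⟨m, rfl⟩ := h.surj x
  have hx' : y j • q m = 0 := hx
  rw [← map_smul, h.ker] at hx'
  obtain ⟨b, hb, h1⟩ := hR S j hj m hx'
  refine ⟨b, hb, Subtype.ext ?_⟩
  have h2 := (h.ker _).2 h1
  rw [map_smul] at h2
  exact h2

/-- one step -/
theorem step_P (hA : S_A6) (hK : S_Kstep) (hN : S_NS) [Algebra.FiniteType (ZMod p) R]
    (X : CMod p R) [Module.Finite R X.M] (d : ℕ) (J : Ideal R)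
    (hJ : ∀ k, 1 ≤ k → k ≤ d → J ≤ frI p k R) {y : R} (hy : y ∈ J) (hns : NS J (X.kr y)) :
    X.P * (X.qt y).P ∈ Ud (ZMod p) d := by
  have hNR : IsNoetherianRing R := Algebra.FiniteType.isNoetherianRing (ZMod p) R
  have hkf := kr_finite X y
  have h1 := hA p R X d J hJ [y] (by simpa using hy)
  rw [hK p R X y []] at h1
  have h2 := hN p R (X.kr y) d J hJ hns []
  have h3 : X.P * (X.qt y).P =
      (X.P / (CMod.KP [] (X.kr y) / CMod.KP [] (X.qt y))) * CMod.KP [] (X.kr y) := by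
    have e1 : CMod.KP [] (X.qt y) = (X.qt y).P := rfl
    rw [e1, div_div_eq_mul_div, div_mul_cancel]
  rw [h3]
  exact mul_mem h1 h2

/-- the alternating product over all quotients -/
theorem koz_ind (hA : S_A6) (hK : S_Kstep) (hN : S_NS) [Algebra.FiniteType (ZMod p) R]
    {N : ℕ} (Y : CMod p R) (y : Fin N → R) (d : ℕ) (J : Ideal R)
    (hJ : ∀ k, 1 ≤ k → k ≤ d → J ≤ frI p k R) (hy : ∀ i, y i ∈ J) (hR : Rg Y y J) :
    ∀ (js : List (Fin N)), js.Nodup → ∀ (S : Finset (Fin N)), (∀ j ∈ js, j ∉ S) →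
    ∀ (X : CMod p R) (q : Y.M →ₗ[R] X.M), Module.Finite R X.M → Qd Y y S X q →
    ∃ (X' : CMod p R) (q' : Y.M →ₗ[R] X'.M), Module.Finite R X'.M ∧
      Qd Y y (S ∪ js.toFinset) X' q' ∧ X.P / X'.P ^ sgn js.length ∈ Ud (ZMod p) d := by
  intro js
  induction js with
  | nil =>
    intro _ S _ X q hX hq
    refine ⟨X, q, hX, by simpa using hq, ?_⟩
    have h1 : sgn ([] : List (Fin N)).length = 1 := rfl
    rw [h1, zpow_one, div_self']
    exact one_mem _
  | cons j js ih =>
    intro hnd S hS X q hX hq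
    rw [List.nodup_cons] at hnd
    have hj : j ∉ S := hS j List.mem_cons_self
    obtain ⟨X', q', hX', hq', h1⟩ := ih hnd.2 (insert j S) (fun i hi => by
      rw [Finset.mem_insert]
      rintro (rfl | h2)
      · exact hnd.1 hi
      · exact hS i (List.mem_cons_of_mem _ hi) h2) (X.qt (y j)) _ inferInstance (qd_step hq hj)
    refine ⟨X', q', hX', ?_, ?_⟩
    · have h2 : S ∪ (j :: js).toFinset = insert j S ∪ js.toFinset := by
        rw [List.toFinset_cons, Finset.union_insert, Finset.insert_union]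
      rw [h2]
      exact hq'
    · have h2 := step_P hA hK hN X d J hJ (hy j) (ns_kr hR hq hj)
      have h3 : sgn (j :: js).length = - sgn js.length := by
        rw [List.length_cons, sgn, sgn, pow_succ]
        ring
      have h4 : X.P / X'.P ^ sgn (j :: js).length =
          (X.P * (X.qt (y j)).P) / ((X.qt (y j)).P / X'.P ^ sgn js.length) := by
        rw [h3, zpow_neg, div_inv_eq_mul, div_div_eq_mul_div, mul_right_comm, mul_div_assoc,
          div_self', mul_one]
      rw [h4]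
      exact div_mem h2 h1

theorem koz (hA : S_A6) (hK : S_Kstep) (hN : S_NS) [Algebra.FiniteType (ZMod p) R]
    {N : ℕ} (Y : CMod p R) [hY : Module.Finite R Y.M] (y : Fin N → R) (d : ℕ) (J : Ideal R)
    (hJ : ∀ k, 1 ≤ k → k ≤ d → J ≤ frI p k R) (hy : ∀ i, y i ∈ J) (hR : Rg Y y J) :
    ∃ (X : CMod p R) (q : Y.M →ₗ[R] X.M), Module.Finite R X.M ∧
      Qd Y y Finset.univ X q ∧ Y.P / X.P ^ sgn N ∈ Ud (ZMod p) d := by
  obtain ⟨X, q, h1, h2, h3⟩ := koz_ind hA hK hN Y y d J hJ hy hR (List.finRange N)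
    (List.nodup_finRange N) ∅ (fun _ _ => Finset.notMem_empty _) Y LinearMap.id hY (qd_empty Y y)
  refine ⟨X, q, h1, ?_, ?_⟩
  · rwa [List.toFinset_finRange, Finset.empty_union] at h2
  · rwa [List.length_finRange] at h3

/-! ### The quotient by the part without support at `V(J)` -/

/-- the elements without support at `V(J)` -/
def nsub (J : Ideal R) (X : CMod p R) : Submodule R X.M where
  carrier := {m | ∃ b : R, b - 1 ∈ J ∧ b • m = 0}
  zero_mem' := ⟨1, by rw [sub_self]; exact J.zero_mem, by rw [smul_zero]⟩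
  add_mem' := by
    rintro m m' ⟨b, hb, h⟩ ⟨b', hb', h'⟩
    refine ⟨b * b', ?_, ?_⟩
    · have h1 : b * b' - 1 = b * (b' - 1) + (b - 1) := by ring
      rw [h1]
      exact J.add_mem (J.mul_mem_left _ hb') hb
    · rw [smul_add, mul_smul, mul_smul, h', smul_zero, add_zero, smul_comm, h, smul_zero]
  smul_mem' := by
    rintro c m ⟨b, hb, h⟩
    exact ⟨b, hb, by rw [smul_comm, h, smul_zero]⟩

theorem mem_nsub {J : Ideal R} {X : CMod p R} {m : X.M} :
    m ∈ nsub J X ↔ ∃ b : R, b - 1 ∈ J ∧ b • m = 0 := Iff.rfl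

theorem nsub_C (J : Ideal R) (X : CMod p R) {m : X.M} (h : m ∈ nsub J X) : X.C m ∈ nsub J X := by
  obtain ⟨b, hb, h1⟩ := h
  refine ⟨b, hb, ?_⟩
  have h2 : b ^ p = b ^ (p - 1) * b := by rw [← pow_succ, Nat.sub_add_cancel hp.out.one_le]
  rw [← X.hC, h2, mul_smul, h1, smul_zero, map_zero]

/-- the part without support at `V(J)` -/
def nsC (J : Ideal R) (X : CMod p R) : CMod p R where
  M := nsub J X
  C :=
    { toFun := fun m => ⟨X.C m.1, nsub_C J X m.2⟩
      map_add' := fun m m' => Subtype.ext (map_add X.C m.1 m'.1)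
      map_smul' := fun c m => Subtype.ext (map_smul X.C c m.1) }
  hC b m := Subtype.ext (X.hC b m.1)

/-- the quotient by the part without support at `V(J)` -/
def nsQ (J : Ideal R) (X : CMod p R) : CMod p R where
  M := X.M ⧸ nsub J X
  C :=
    { toFun := Quotient.map' (fun m => X.C m) (by
        intro a b h
        rw [Submodule.quotientRel_def] at h ⊢
        rw [← map_sub]
        exact nsub_C J X h)
      map_add' := by
        rintro ⟨a⟩ ⟨b⟩
        exact congrArg (Submodule.Quotient.mk) (map_add X.C a b)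
      map_smul' := by
        rintro c ⟨a⟩
        exact congrArg (Submodule.Quotient.mk) (map_smul X.C c a) }
  hC b m := by
    obtain ⟨m, rfl⟩ := Submodule.Quotient.mk_surjective _ m
    exact congrArg (Submodule.Quotient.mk) (X.hC b m)

theorem ns_nsC (J : Ideal R) (X : CMod p R) : NS J (nsC J X) := by
  rintro ⟨m, b, hb, h⟩
  exact ⟨b, hb, Subtype.ext h⟩

theorem nsQ_C (J : Ideal R) (X : CMod p R) (m : X.M) :
    (nsQ J X).C ((nsub J X).mkQ m) = (nsub J X).mkQ (X.C m) := rfl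

/-- the inclusion -/
def nsi (J : Ideal R) (X : CMod p R) : (nsC J X).M →ₗ[R] X.M := (nsub J X).subtype

/-- the projection -/
def nsq (J : Ideal R) (X : CMod p R) : X.M →ₗ[R] (nsQ J X).M := (nsub J X).mkQ

theorem nsi_inj (J : Ideal R) (X : CMod p R) : Function.Injective (nsi J X) :=
  Subtype.val_injective

theorem nsq_surj (J : Ideal R) (X : CMod p R) : Function.Surjective (nsq J X) :=
  Submodule.mkQ_surjective _

theorem nsq_zero (J : Ideal R) (X : CMod p R) (m : X.M) : nsq J X m = 0 ↔ m ∈ nsub J X :=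
  Submodule.Quotient.mk_eq_zero _

theorem P_nsQ (hN : S_NS) (hnuc : I_nuc) [Algebra.FiniteType (ZMod p) R]
    (X : CMod p R) [Module.Finite R X.M] (d : ℕ) (J : Ideal R)
    (hJ : ∀ k, 1 ≤ k → k ≤ d → J ≤ frI p k R) :
    (∃ W, Nuc (nsQ J X).C ⊤ W) ∧ X.P / (nsQ J X).P ∈ Ud (ZMod p) d := by
  have hNR : IsNoetherianRing R := Algebra.FiniteType.isNoetherianRing (ZMod p) R
  have hf : Module.Finite R (nsC J X).M := inferInstanceAs (Module.Finite R (nsub J X))
  have h1 := hN p R (nsC J X) d J hJ (ns_nsC J X) []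
  have hex : LinearMap.range ((nsi J X).restrictScalars (ZMod p)) =
      LinearMap.ker ((nsq J X).restrictScalars (ZMod p)) := by
    ext m
    rw [LinearMap.mem_range, LinearMap.mem_ker]
    constructor
    · rintro ⟨x, rfl⟩
      exact (nsq_zero J X _).2 x.2
    · intro h
      exact ⟨⟨m, (nsq_zero J X m).1 h⟩, rfl⟩
  have hc1 : ∀ v, X.C ((nsi J X).restrictScalars (ZMod p) v) =
      (nsi J X).restrictScalars (ZMod p) ((nsC J X).C v) := fun v => rfl
  have hc2 : ∀ v, (nsQ J X).C ((nsq J X).restrictScalars (ZMod p) v) =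
      (nsq J X).restrictScalars (ZMod p) (X.C v) := fun v => rfl
  have h2 := p_ex (ZMod p) (nsC J X).M X.M (nsQ J X).M (nsC J X).C X.C (nsQ J X).C
    ((nsi J X).restrictScalars (ZMod p)) ((nsq J X).restrictScalars (ZMod p))
    (nsi_inj J X) (nsq_surj J X) hex hc1 hc2 (hnuc p R X)
  refine ⟨h2.2.1, ?_⟩
  have h5 : X.P = CMod.KP [] (nsC J X) * (nsQ J X).P := h2.2.2
  rw [h5, mul_div_assoc, div_self', mul_one]
  exact h1

end

end Pool.Agent.FrB
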