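import Pool.Agent.Lib.MP_305fdd_al.Fr.N.B.Basic

/-!
# MP_305fdd_al, F_r, nilpotence block, section B: the local structure of a regular ring

`Z` a finitely generated commutative ring of characteristic `p`, `m` a maximal ideal whose localisation
is generated by `y 1, .., y N`.  Then, outside the zero set of some `r` with `r ∉ m`, `Z` is generated by
the monomials `y ^ a`, `0 ≤ a i < p`, over the ring of `p`-th powers.
-/

set_option autoImplicit false
set_option linter.unusedSectionVars false

namespace Pool.Agent.FrB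

open Pool.Agent.F2Ch Pool.Agent.F2RF

/-- `Z` with the action `z • x = z ^ p * x` -/
def Fz (_p : ℕ) (Z : Type) : Type := Z

section

variable (p : ℕ) [hp : Fact p.Prime] (Z : Type) [CommRing Z] [CharP Z p]

instance instAddFz : AddCommGroup (Fz p Z) := inferInstanceAs (AddCommGroup Z)

noncomputable instance instModFz : Module Z (Fz p Z) :=
  Module.compHom Z (frobenius Z p)

/-- the identity -/
def toF : Z ≃+ Fz p Z := AddEquiv.refl Z

variable {Z}

theorem fz_smul (z : Z) (x : Z) : z • toF p Z x = toF p Z (z ^ p * x) := rfl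

/-- the ring is a finitely generated module over its `p`-th powers -/
theorem fz_finite [Algebra (ZMod p) Z] [Algebra.FiniteType (ZMod p) Z] :
    Module.Finite Z (Fz p Z) := by
  have h1 : (frobenius Z p).IsIntegral := by
    intro x
    refine ⟨Polynomial.X ^ p - Polynomial.C x, ?_, ?_⟩
    · exact Polynomial.monic_X_pow_sub_C x hp.out.ne_zero
    · rw [Polynomial.eval₂_sub, Polynomial.eval₂_X_pow, Polynomial.eval₂_C, frobenius_def,
        sub_self]
  have h2 : ((frobenius Z p).comp (algebraMap (ZMod p) Z)) = algebraMap (ZMod p) Z :=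
    Subsingleton.elim _ _
  have h3 : ((frobenius Z p).comp (algebraMap (ZMod p) Z)).FiniteType := by
    rw [h2]
    exact (RingHom.finiteType_algebraMap (A := ZMod p) (B := Z)).2 inferInstance
  have h4 : (frobenius Z p).FiniteType := RingHom.FiniteType.of_comp_finiteType h3
  exact h1.to_finite h4

/-- residue fields are perfect -/
theorem exists_root [Algebra (ZMod p) Z] [Algebra.FiniteType (ZMod p) Z] (m : Ideal Z)
    [hm : m.IsMaximal] (z : Z) : ∃ a : Z, z - a ^ p ∈ m := by
  let _ : Field (Z ⧸ m) := Ideal.Quotient.field m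
  have h1 : Algebra.FiniteType (ZMod p) (Z ⧸ m) := inferInstance
  have h2 : Module.Finite (ZMod p) (Z ⧸ m) := finite_of_finite_type_of_isJacobsonRing _ _
  have h3 : Finite (Z ⧸ m) := Module.finite_of_finite (ZMod p)
  have : CharP (Z ⧸ m) p := by
    exact charP_of_injective_algebraMap (algebraMap (ZMod p) (Z ⧸ m)).injective p
  have h4 : Function.Surjective (frobenius (Z ⧸ m) p) :=
    Finite.injective_iff_surjective.1 (frobenius_inj (Z ⧸ m) p)
  obtain ⟨b, hb⟩ := h4 (Ideal.Quotient.mk m z)
  obtain ⟨a, rfl⟩ := Ideal.Quotient.mk_surjective b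
  refine ⟨a, ?_⟩
  rw [← Ideal.Quotient.eq_zero_iff_mem, map_sub, map_pow, ← frobenius_def, hb, sub_self]

/-- the ideal generated by the `p`-th powers of the elements of `m` -/
def pIdeal (m : Ideal Z) : Ideal Z := Ideal.span ((fun x => x ^ p) '' (m : Set Z))

theorem pIdeal_le (m : Ideal Z) (h : m.FG) : ∃ k : ℕ, m ^ k ≤ pIdeal p m := by
  have h1 : m ≤ (pIdeal p m).radical := by
    intro x hx
    exact ⟨p, Ideal.subset_span ⟨x, hx, rfl⟩⟩
  exact Ideal.exists_pow_le_of_le_radical_of_fg h1 h

theorem mul_top (m : Ideal Z) (z x : Z) (hx : toF p Z x ∈ m • (⊤ : Submodule Z (Fz p Z))) :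
    toF p Z (z * x) ∈ m • (⊤ : Submodule Z (Fz p Z)) := by
  have key : ∀ w : Fz p Z, w ∈ m • (⊤ : Submodule Z (Fz p Z)) →
      toF p Z (z * (toF p Z).symm w) ∈ m • (⊤ : Submodule Z (Fz p Z)) := by
    intro w hw
    induction hw using Submodule.smul_induction_on' with
    | smul r hr n _ =>
      have h1 : (toF p Z).symm (r • n) = r ^ p * (toF p Z).symm n := rfl
      have h2 : z * (r ^ p * (toF p Z).symm n) = r ^ p * (z * (toF p Z).symm n) := by ring
      rw [h1, h2, ← fz_smul]
      exact Submodule.smul_mem_smul hr trivial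
    | add x _ y _ hx hy =>
      rw [map_add, mul_add, map_add]
      exact Submodule.add_mem _ hx hy
  exact key (toF p Z x) hx

theorem pIdeal_sub (m : Ideal Z) (x : Z) (hx : x ∈ pIdeal p m) :
    toF p Z x ∈ m • (⊤ : Submodule Z (Fz p Z)) := by
  unfold pIdeal at hx
  induction hx using Submodule.span_induction with
  | mem x hx =>
    obtain ⟨μ, hμ, rfl⟩ := hx
    have h1 : μ • toF p Z 1 ∈ m • (⊤ : Submodule Z (Fz p Z)) :=
      Submodule.smul_mem_smul hμ trivial
    rw [fz_smul, mul_one] at h1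
    exact h1
  | zero => rw [map_zero]; exact Submodule.zero_mem _
  | add x y _ _ hx hy => rw [map_add]; exact Submodule.add_mem _ hx hy
  | smul z x _ hx => exact mul_top p m z x hx

/-- the module generated by the small monomials and `m • ⊤` -/
noncomputable def Tm {N : ℕ} (m : Ideal Z) (y : Fin N → Z) : Submodule Z (Fz p Z) :=
  Submodule.span Z (Set.range fun a : Fin N → Fin p => toF p Z (monY (p := p) y a)) ⊔
    m • (⊤ : Submodule Z (Fz p Z))

theorem tm_sub {N : ℕ} (m : Ideal Z) (y : Fin N → Z) (x : Z) (hx : x ∈ pIdeal p m) :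
    toF p Z x ∈ Tm p m y := Submodule.mem_sup_right (pIdeal_sub p m x hx)

theorem tm_mul {N : ℕ} (m : Ideal Z) (y : Fin N → Z) (hy : ∀ i, y i ∈ m) (i : Fin N) (x : Z)
    (hx : toF p Z x ∈ Tm p m y) : toF p Z (y i * x) ∈ Tm p m y := by
  have key : ∀ w : Fz p Z,
      w ∈ Submodule.span Z (Set.range fun a : Fin N → Fin p => toF p Z (monY (p := p) y a)) →
      toF p Z (y i * (toF p Z).symm w) ∈ Tm p m y := by
    intro w hw
    induction hw using Submodule.span_induction with
    | mem w hw =>
      obtain ⟨a, rfl⟩ := hw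
      simp only [AddEquiv.symm_apply_apply]
      by_cases ha : (a i : ℕ) + 1 < p
      · refine Submodule.mem_sup_left (Submodule.subset_span
          ⟨Function.update a i ⟨(a i : ℕ) + 1, ha⟩, ?_⟩)
        simp only
        congr 1
        unfold monY
        rw [← Finset.mul_prod_erase _ _ (Finset.mem_univ i),
          ← Finset.mul_prod_erase Finset.univ (fun j => y j ^ (a j : ℕ)) (Finset.mem_univ i),
          Function.update_self, pow_succ', mul_assoc]
        congr 2
        refine Finset.prod_congr rfl fun j hj => ?_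
        rw [Function.update_of_ne (Finset.ne_of_mem_erase hj)]
      · apply tm_sub
        have h1 : (a i : ℕ) + 1 = p := by
          have := (a i).2
          omega
        unfold monY
        rw [← Finset.mul_prod_erase Finset.univ (fun j => y j ^ (a j : ℕ)) (Finset.mem_univ i),
          ← mul_assoc, ← pow_succ', h1]
        exact Ideal.mul_mem_right _ _ (Ideal.subset_span ⟨y i, hy i, rfl⟩)
    | zero => rw [map_zero, mul_zero, map_zero]; exact Submodule.zero_mem _
    | add x y _ _ hx hy => rw [map_add, mul_add, map_add]; exact Submodule.add_mem _ hx hy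
    | smul z x _ hx =>
      have h1 : (toF p Z).symm (z • x) = z ^ p * (toF p Z).symm x := rfl
      have h2 : y i * (z ^ p * (toF p Z).symm x) = z ^ p * (y i * (toF p Z).symm x) := by ring
      rw [h1, h2, ← fz_smul]
      exact Submodule.smul_mem _ _ hx
  obtain ⟨u, hu, v, hv, huv⟩ := Submodule.mem_sup.1 hx
  have h1 : y i * x = y i * (toF p Z).symm u + y i * (toF p Z).symm v := by
    rw [← mul_add, ← map_add, huv, AddEquiv.symm_apply_apply]
  rw [h1, map_add]
  exact Submodule.add_mem _ (key u hu) (Submodule.mem_sup_right (mul_top p m _ _ hv))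

/-- `Z` is generated by the small monomials modulo `m • ⊤` -/
theorem tm_top [Algebra (ZMod p) Z] [Algebra.FiniteType (ZMod p) Z] {N : ℕ} (m : Ideal Z)
    [hm : m.IsMaximal] (y : Fin N → Z) (hy : ∀ i, y i ∈ m) (h : Z) (hh : h ∉ m)
    (hr : ∀ z ∈ m, h * z ∈ Ideal.span (Set.range y)) : Tm p m y = ⊤ := by
  have : IsNoetherianRing Z := Algebra.FiniteType.isNoetherianRing (ZMod p) Z
  obtain ⟨k, hk⟩ := pIdeal_le p m (IsNoetherian.noetherian m)
  set Y : Ideal Z := Ideal.span (Set.range y) with hY
  obtain ⟨g, hg⟩ : ∃ g : Z, 1 - h * g ∈ m := by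
    obtain ⟨u, hu⟩ := Ideal.Quotient.exists_inv (I := m) (a := Ideal.Quotient.mk m h) (by
      rwa [Ne, Ideal.Quotient.eq_zero_iff_mem])
    obtain ⟨g, rfl⟩ := Ideal.Quotient.mk_surjective u
    refine ⟨g, ?_⟩
    rw [← Ideal.Quotient.eq_zero_iff_mem, map_sub, map_mul, map_one, hu, sub_self]
  have h1 : ∀ z ∈ m, ∃ u ∈ Y, z - u ∈ pIdeal p m := by
    intro z hz
    have h2 : (1 - h * g) ^ k ∈ pIdeal p m := hk (Ideal.pow_mem_pow hg k)
    obtain ⟨c, hc⟩ : h * g ∣ 1 - (1 - h * g) ^ k := by
      have h3 := sub_dvd_pow_sub_pow (1 : Z) (1 - h * g) k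
      rwa [one_pow, sub_sub_cancel] at h3
    refine ⟨z * (1 - (1 - h * g) ^ k), ?_, ?_⟩
    · rw [hc]
      have h4 : z * (h * g * c) = (g * c) * (h * z) := by ring
      rw [h4]
      exact Ideal.mul_mem_left _ _ (hr z hz)
    · have h4 : z - z * (1 - (1 - h * g) ^ k) = z * (1 - h * g) ^ k := by ring
      rw [h4]
      exact Ideal.mul_mem_left _ _ h2
  have hYm : Y ≤ m := by
    rw [hY, Ideal.span_le]
    rintro _ ⟨i, rfl⟩
    exact hy i
  have hone : toF p Z 1 ∈ Tm p m y := by
    refine Submodule.mem_sup_left (Submodule.subset_span ⟨fun _ => ⟨0, hp.out.pos⟩, ?_⟩)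
    simp [monY]
  have P : ∀ j : ℕ, ∀ x ∈ Y ^ j, ∃ t : Z, toF p Z t ∈ Tm p m y ∧ x - t ∈ Y ^ (j + 1) := by
    intro j
    induction j with
    | zero =>
      intro x _
      obtain ⟨a, ha⟩ := exists_root p m x
      obtain ⟨u, hu, hxu⟩ := h1 _ ha
      refine ⟨a ^ p + (x - a ^ p - u), ?_, ?_⟩
      · rw [map_add]
        refine Submodule.add_mem _ ?_ (tm_sub p m y _ hxu)
        have h2 := Submodule.smul_mem (Tm p m y) a hone
        rwa [fz_smul, mul_one] at h2
      · have h2 : x - (a ^ p + (x - a ^ p - u)) = u := by ring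
        rw [h2, zero_add, pow_one]
        exact hu
    | succ j ih =>
      intro x hx
      rw [pow_succ'] at hx
      induction hx using Submodule.mul_induction_on' with
      | mem_mul_mem u hu w hw =>
        obtain ⟨c, hc⟩ := Ideal.mem_span_range_iff_exists_fun.1 hu
        choose t ht1 ht2 using fun i => ih (c i * w) (Ideal.mul_mem_left _ _ hw)
        refine ⟨∑ i, y i * t i, ?_, ?_⟩
        · rw [map_sum]
          exact Submodule.sum_mem _ fun i _ => tm_mul p m y hy i _ (ht1 i)
        · have h2 : u * w - ∑ i, y i * t i = ∑ i, y i * (c i * w - t i) := by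
            rw [← hc, Finset.sum_mul, ← Finset.sum_sub_distrib]
            exact Finset.sum_congr rfl fun i _ => by ring
          rw [h2, pow_succ' Y (j + 1)]
          exact Ideal.sum_mem _ fun i _ =>
            Ideal.mul_mem_mul (Ideal.subset_span ⟨i, rfl⟩) (ht2 i)
      | add x _ x' _ hx hx' =>
        obtain ⟨t, ht, h2⟩ := hx
        obtain ⟨t', ht', h2'⟩ := hx'
        refine ⟨t + t', ?_, ?_⟩
        · rw [map_add]
          exact Submodule.add_mem _ ht ht'
        · rw [add_sub_add_comm]
          exact Ideal.add_mem _ h2 h2'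
  have Q : ∀ j : ℕ, ∀ x : Z, ∃ t : Z, toF p Z t ∈ Tm p m y ∧ x - t ∈ Y ^ j := by
    intro j
    induction j with
    | zero =>
      intro x
      exact ⟨0, by rw [map_zero]; exact Submodule.zero_mem _, by
        rw [pow_zero, Ideal.one_eq_top]; trivial⟩
    | succ j ih =>
      intro x
      obtain ⟨t, ht, h2⟩ := ih x
      obtain ⟨t', ht', h3⟩ := P j _ h2
      refine ⟨t + t', ?_, ?_⟩
      · rw [map_add]
        exact Submodule.add_mem _ ht ht'
      · rw [← sub_sub]
        exact h3
  rw [eq_top_iff]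
  intro w _
  obtain ⟨t, ht, h2⟩ := Q k ((toF p Z).symm w)
  have h3 : toF p Z ((toF p Z).symm w - t) ∈ Tm p m y :=
    tm_sub p m y _ (hk (Ideal.pow_right_mono hYm k h2))
  have h4 := Submodule.add_mem _ h3 ht
  rwa [← map_add, sub_add_cancel, AddEquiv.apply_symm_apply] at h4

/-- THE LOCAL STRUCTURE: there is `r ∉ m` such that `r ^ p * Z` is contained in the module generated by
the small monomials in `y` over the ring of `p`-th powers. -/
theorem loc_gen [Algebra (ZMod p) Z] [Algebra.FiniteType (ZMod p) Z] {N : ℕ} (m : Ideal Z)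
    [hm : m.IsMaximal] (y : Fin N → Z) (hy : ∀ i, y i ∈ m) (h : Z) (hh : h ∉ m)
    (hr : ∀ z ∈ m, h * z ∈ Ideal.span (Set.range y)) :
    ∃ r : Z, r ∉ m ∧ ∀ z : Z, ∃ c : (Fin N → Fin p) → Z,
      r ^ p * z = ∑ a, c a ^ p * monY (p := p) y a := by
  have : Module.Finite Z (Fz p Z) := fz_finite p
  set W : Submodule Z (Fz p Z) :=
    Submodule.span Z (Set.range fun a : Fin N → Fin p => toF p Z (monY (p := p) y a)) with hW
  have htop := tm_top p m y hy h hh hr
  have h1 : (⊤ : Submodule Z (Fz p Z ⧸ W)) ≤ m • (⊤ : Submodule Z (Fz p Z ⧸ W)) := by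
    intro w _
    obtain ⟨x, rfl⟩ := Submodule.Quotient.mk_surjective W w
    have h2 : x ∈ Tm p m y := by rw [htop]; trivial
    obtain ⟨u, hu, v, hv, huv⟩ := Submodule.mem_sup.1 h2
    have h3 : (Submodule.Quotient.mk x : Fz p Z ⧸ W) = W.mkQ v := by
      rw [← huv, Submodule.Quotient.mk_add, (Submodule.Quotient.mk_eq_zero W).2 hu, zero_add]
      rfl
    rw [h3]
    have h4 : W.mkQ v ∈ Submodule.map W.mkQ (m • (⊤ : Submodule Z (Fz p Z))) :=
      Submodule.mem_map_of_mem hv
    rw [Submodule.map_smul''] at h4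
    exact Submodule.smul_mono le_rfl le_top h4
  obtain ⟨r, hr1, hr2⟩ := Submodule.exists_sub_one_mem_and_smul_eq_zero_of_fg_of_le_smul m
    (⊤ : Submodule Z (Fz p Z ⧸ W)) (Module.Finite.fg_top) h1
  refine ⟨r, fun hrm => ?_, fun z => ?_⟩
  · have h2 : (1 : Z) ∈ m := by
      have h3 := Ideal.sub_mem _ hrm hr1
      rwa [sub_sub_cancel] at h3
    exact hm.ne_top ((Ideal.eq_top_iff_one m).2 h2)
  · have h2 := hr2 (Submodule.Quotient.mk (toF p Z z)) trivial
    rw [← Submodule.Quotient.mk_smul, Submodule.Quotient.mk_eq_zero, fz_smul] at h2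
    obtain ⟨c, hc⟩ := (Submodule.mem_span_range_iff_exists_fun Z).1 h2
    refine ⟨c, ?_⟩
    apply (toF p Z).injective
    rw [← hc, map_sum]
    exact Finset.sum_congr rfl fun a _ => rfl

end

end Pool.Agent.FrB
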