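import Pool.Agent.Lib.MP_305fdd_al.Fr.N.B.Stm

/-!
# MP_305fdd_al, F_r, nilpotence block, section B: the inverse Frobenius of a finite field
-/

set_option autoImplicit false

namespace Pool.Agent.FrB

open Polynomial

theorem p_fc : S_fc := by
  intro p _ κ _ _ _ e hκ C hC
  have hfin : Finite κ := Module.finite_of_finite (ZMod p)
  have hft : Fintype κ := Fintype.ofFinite κ
  have he : Module.finrank (ZMod p) κ = e := by
    have h1 : Fintype.card κ = Fintype.card (ZMod p) ^ Module.finrank (ZMod p) κ :=
      Module.card_eq_pow_finrank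
    rw [ZMod.card, ← Nat.card_eq_fintype_card, hκ] at h1
    exact (Nat.pow_right_injective (Fact.out (p := p.Prime)).two_le h1).symm
  set φ := FiniteField.frobeniusAlgEquivOfAlgebraic (ZMod p) κ with hφ
  have hφx : ∀ x, φ x = x ^ p := by
    intro x
    have := congrFun (FiniteField.coe_frobeniusAlgEquivOfAlgebraic (ZMod p) κ) x
    rw [hφ, this, ZMod.card]
  have hCφ : C = (φ⁻¹).toLinearMap := by
    apply LinearMap.ext
    intro y
    obtain ⟨x, rfl⟩ := φ.surjective y
    have h1 : (φ⁻¹) (φ x) = x := φ.symm_apply_apply x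
    rw [AlgEquiv.toLinearMap_apply, h1, hφx, hC]
  have hmin : minpoly (ZMod p) C = X ^ e - 1 := by
    rw [hCφ, minpoly_algEquiv_toLinearMap _ (isOfFinOrder_of_finite _), orderOf_inv,
      FiniteField.orderOf_frobeniusAlgEquivOfAlgebraic, he, Polynomial.C_1]
  have hd := LinearMap.minpoly_dvd_charpoly C
  have hm : (minpoly (ZMod p) C).Monic := minpoly.monic (LinearMap.isIntegral C)
  have hdeg : C.charpoly.natDegree ≤ (minpoly (ZMod p) C).natDegree := by
    rw [LinearMap.charpoly_natDegree, he, hmin, ← Polynomial.C_1, natDegree_X_pow_sub_C]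
  rw [Polynomial.eq_of_monic_of_dvd_of_natDegree_le hm C.charpoly_monic hd hdeg, hmin]

end Pool.Agent.FrB
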