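import Pool.Agent.Lib.MP_305fdd_al.Fr.N.B.Stm

set_option autoImplicit false

namespace Pool.Agent.FrB

open Pool.Agent.FrNA

private theorem frob_quot {Z : Type} [CommRing Z] (J : Ideal Z) (q : ℕ)
    (hJ : ∀ b : Z, b ^ q - b ∈ J) (x : Z ⧸ J) : x ^ q = x := by
  obtain ⟨b, rfl⟩ := Ideal.Quotient.mk_surjective x
  rw [← map_pow, ← sub_eq_zero, ← map_sub]
  exact Ideal.Quotient.eq_zero_iff_mem.2 (hJ b)

private theorem quot_finite (p : ℕ) [Fact p.Prime] {Z : Type} [CommRing Z] [Algebra (ZMod p) Z]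
    [Algebra.FiniteType (ZMod p) Z] (k : ℕ) (hk : 1 ≤ k) (J : Ideal Z)
    (hJ : ∀ b : Z, b ^ (p ^ k) - b ∈ J) : Finite (Z ⧸ J) := by
  have hp : p.Prime := Fact.out
  have hq : 1 < p ^ k := Nat.one_lt_pow (by omega) hp.one_lt
  haveI : Algebra.FiniteType (ZMod p) (Z ⧸ J) :=
    Algebra.FiniteType.of_surjective (Ideal.Quotient.mkₐ (ZMod p) J)
      (Ideal.Quotient.mkₐ_surjective (ZMod p) J)
  haveI : Algebra.IsIntegral (ZMod p) (Z ⧸ J) := by
    constructor
    intro x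
    refine ⟨Polynomial.X ^ (p ^ k) - Polynomial.X, ?_, ?_⟩
    · apply Polynomial.monic_X_pow_sub
      rw [Polynomial.degree_X]
      exact_mod_cast hq
    · simp only [Polynomial.eval₂_sub, Polynomial.eval₂_pow, Polynomial.eval₂_X]
      rw [frob_quot J _ hJ x, sub_self]
  haveI : Module.Finite (ZMod p) (Z ⧸ J) := Algebra.IsIntegral.finite
  exact Module.finite_of_finite (ZMod p)

private theorem span_le_iff' {Z : Type} [CommRing Z] (q : ℕ) (J : Ideal Z) :
    Ideal.span (Set.range fun b : Z => b ^ q - b) ≤ J ↔ ∀ b : Z, b ^ q - b ∈ J := by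
  rw [Ideal.span_le]
  constructor
  · intro h b
    exact h ⟨b, rfl⟩
  · rintro h _ ⟨b, rfl⟩
    exact h b

private theorem over_finite (p : ℕ) [Fact p.Prime] {Z : Type} [CommRing Z] [Algebra (ZMod p) Z]
    [Algebra.FiniteType (ZMod p) Z] (k : ℕ) (hk : 1 ≤ k) :
    {J : Ideal Z | ∀ b : Z, b ^ (p ^ k) - b ∈ J}.Finite := by
  let I : Ideal Z := Ideal.span (Set.range fun b : Z => b ^ (p ^ k) - b)
  haveI : Finite (Z ⧸ I) := quot_finite p k hk I ((span_le_iff' _ I).1 le_rfl)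
  haveI : Finite (Ideal (Z ⧸ I)) :=
    Finite.of_injective (fun J : Ideal (Z ⧸ I) => (J : Set (Z ⧸ I))) SetLike.coe_injective
  apply Set.Finite.subset (Set.finite_range (Ideal.comap (Ideal.Quotient.mk I)))
  intro J hJ
  refine ⟨Ideal.map (Ideal.Quotient.mk I) J, ?_⟩
  exact Ideal.comap_map_mk ((span_le_iff' _ J).2 hJ)

private theorem card_mem {Z : Type} [CommRing Z] (q : ℕ) (hq : q ≠ 0) (m : Ideal Z)
    (hm : m.IsMaximal) (hc : Nat.card (Z ⧸ m) = q) : ∀ b : Z, b ^ q - b ∈ m := by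
  intro b
  letI := Ideal.Quotient.field m
  haveI : Finite (Z ⧸ m) := Nat.finite_of_card_ne_zero (by rw [hc]; exact hq)
  letI := Fintype.ofFinite (Z ⧸ m)
  rw [Nat.card_eq_fintype_card] at hc
  have h := FiniteField.pow_card (Ideal.Quotient.mk m b)
  rw [hc] at h
  rw [← Ideal.Quotient.eq_zero_iff_mem, map_sub, map_pow, h, sub_self]

private theorem card_exists (p : ℕ) [Fact p.Prime] {Z : Type} [CommRing Z] [Algebra (ZMod p) Z]
    [Algebra.FiniteType (ZMod p) Z] (k : ℕ) (hk : 1 ≤ k) (m : Ideal Z) (hm : m.IsMaximal)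
    (hJ : ∀ b : Z, b ^ (p ^ k) - b ∈ m) :
    ∃ e, 1 ≤ e ∧ e ≤ k ∧ Nat.card (Z ⧸ m) = p ^ e := by
  have hp : p.Prime := Fact.out
  have hq : 1 < p ^ k := Nat.one_lt_pow (by omega) hp.one_lt
  haveI : Finite (Z ⧸ m) := quot_finite p k hk m hJ
  have hfr := frob_quot m _ hJ
  letI := Ideal.Quotient.field m
  letI := Fintype.ofFinite (Z ⧸ m)
  haveI : CharP (Z ⧸ m) p :=
    charP_of_injective_algebraMap (algebraMap (ZMod p) (Z ⧸ m)).injective p
  obtain ⟨n, -, hn⟩ := FiniteField.card (Z ⧸ m) p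
  refine ⟨n, n.2, ?_, ?_⟩
  · have h1 : Fintype.card (Z ⧸ m) ≤ p ^ k := by
      have hne : (Polynomial.X ^ (p ^ k) - Polynomial.X : Polynomial (Z ⧸ m)) ≠ 0 :=
        FiniteField.X_pow_card_sub_X_ne_zero _ hq
      have h2 := Polynomial.card_le_degree_of_subset_roots
        (p := (Polynomial.X ^ (p ^ k) - Polynomial.X : Polynomial (Z ⧸ m)))
        (Z := (Finset.univ : Finset (Z ⧸ m))) (by
          intro x _
          rw [Polynomial.mem_roots hne]
          simp only [Polynomial.IsRoot.def, Polynomial.eval_sub, Polynomial.eval_pow,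
            Polynomial.eval_X]
          rw [hfr x, sub_self])
      rw [FiniteField.X_pow_card_sub_X_natDegree_eq _ hq] at h2
      simpa using h2
    rw [hn] at h1
    exact (Nat.pow_le_pow_iff_right hp.one_lt).1 h1
  · rw [Nat.card_eq_fintype_card, hn]

theorem p_fr : S_fr := by
  intro p _ Z _ _ _ d
  have hp : p.Prime := Fact.out
  have hfin : {m : Ideal Z | m.IsMaximal ∧ ∃ e, 1 ≤ e ∧ e ≤ d ∧ Nat.card (Z ⧸ m) = p ^ e}.Finite := by
    apply Set.Finite.subset (Set.Finite.biUnion (Set.finite_Icc 1 d)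
      (t := fun e => {J : Ideal Z | 1 ≤ e ∧ ∀ b : Z, b ^ (p ^ e) - b ∈ J}) ?_)
    · rintro m ⟨hm, e, h1, h2, h3⟩
      refine Set.mem_biUnion (x := e) ⟨h1, h2⟩ ⟨h1, ?_⟩
      exact card_mem _ (pow_ne_zero _ hp.ne_zero) m hm h3
    · intro e he
      exact (over_finite p e he.1).subset (fun J hJ => hJ.2)
  have hmem : ∀ m : Ideal Z, m.IsMaximal → ∀ k, 1 ≤ k → k ≤ d →
      Ideal.span (Set.range fun b : Z => b ^ (p ^ k) - b) ≤ m →
      m ∈ {m : Ideal Z | m.IsMaximal ∧ ∃ e, 1 ≤ e ∧ e ≤ d ∧ Nat.card (Z ⧸ m) = p ^ e} := by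
    intro m hm k hk1 hk2 hle
    obtain ⟨e, h1, h2, h3⟩ := card_exists p k hk1 m hm ((span_le_iff' _ m).1 hle)
    exact ⟨hm, e, h1, h2.trans hk2, h3⟩
  refine ⟨hfin.toFinset, ?_, ?_, ?_⟩
  · intro m
    rw [Set.Finite.mem_toFinset]
    rfl
  · intro m hm k hk1 hk2 hle
    rw [Set.Finite.mem_toFinset]
    exact hmem m hm k hk1 hk2 hle
  · intro k hk1 hk2 x hx
    have hq : 1 < p ^ k := Nat.one_lt_pow (by omega) hp.one_lt
    have hrad : x ∈ (Ideal.span (Set.range fun b : Z => b ^ (p ^ k) - b)).radical := by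
      rw [Ideal.radical_eq_sInf, Ideal.mem_sInf]
      rintro J ⟨hJ1, hJ2⟩
      haveI : Finite (Z ⧸ J) := quot_finite p k hk1 J ((span_le_iff' _ J).1 hJ1)
      haveI := hJ2
      have hfld : IsField (Z ⧸ J) := Finite.isField_of_domain _
      have hmax : J.IsMaximal := Ideal.Quotient.maximal_of_isField J hfld
      have hT : J ∈ hfin.toFinset := by
        rw [Set.Finite.mem_toFinset]
        exact hmem J hmax k hk1 hk2 hJ1
      exact (Finset.inf_le hT : hfin.toFinset.inf id ≤ id J) hx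
    obtain ⟨n, hn⟩ := hrad
    set I : Ideal Z := Ideal.span (Set.range fun b : Z => b ^ (p ^ k) - b) with hI
    have hfr := frob_quot I (p ^ k) ((span_le_iff' _ I).1 le_rfl) (Ideal.Quotient.mk I x)
    have hfr2 : ∀ j : ℕ, (Ideal.Quotient.mk I x) ^ ((p ^ k) ^ j) = Ideal.Quotient.mk I x := by
      intro j
      induction j with
      | zero => simp
      | succ j ih => rw [pow_succ, pow_mul, ih, hfr]
    have hn0 : (Ideal.Quotient.mk I x) ^ n = 0 := by
      rw [← map_pow]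
      exact Ideal.Quotient.eq_zero_iff_mem.2 hn
    have hlt : n ≤ (p ^ k) ^ n := (Nat.lt_pow_self hq).le
    rw [← Ideal.Quotient.eq_zero_iff_mem, ← hfr2 n]
    obtain ⟨c, hc⟩ := Nat.exists_eq_add_of_le hlt
    rw [hc, pow_add, hn0, zero_mul]

end Pool.Agent.FrB
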