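import Pool.Agent.Lib.MP_305fdd_al.Fr.N.B.Stm

/-!
# MP_305fdd_al, F_r, nilpotence block, section B: piece lf
-/

set_option autoImplicit false

namespace Pool.Agent.FrB

open Pool.Agent.FrNA

theorem lf_equiv {k Z A B : Type} [Field k] [AddCommGroup Z] [Module k Z] [AddCommGroup A]
    [Module k A] [AddCommGroup B] [Module k B] (h : Z →ₗ[k] A) (g : Z →ₗ[k] B)
    (hh : Function.Surjective h) (hg : Function.Surjective g)
    (hk : LinearMap.ker h = LinearMap.ker g) : ∃ e : A ≃ₗ[k] B, ∀ z, e (h z) = g z := by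
  refine ⟨(h.quotKerEquivOfSurjective hh).symm ≪≫ₗ (Submodule.quotEquivOfEq _ _ hk) ≪≫ₗ
    (g.quotKerEquivOfSurjective hg), fun z => ?_⟩
  have h1 : (h.quotKerEquivOfSurjective hh).symm (h z) = Submodule.Quotient.mk z := by
    rw [LinearEquiv.symm_apply_eq]
    rfl
  simp only [LinearEquiv.trans_apply]
  rw [h1]
  rfl

theorem lf_finite {p : ℕ} [Fact p.Prime] {Z : Type} [CommRing Z] [Algebra (ZMod p) Z]
    {T : Finset (Ideal Z)} (hT : ∀ m ∈ T, Finite (Z ⧸ m)) {V : Type} [AddCommGroup V]
    [Module (ZMod p) V] (l : Z →ₗ[ZMod p] V) (hs : Function.Surjective l)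
    (hk : ∀ z, l z = 0 ↔ z ∈ T.inf id) : Finite V := by
  classical
  have : ∀ m : T, Finite (Z ⧸ (m : Ideal Z)) := fun m => hT m.1 m.2
  choose s hs' using hs
  refine Finite.of_injective (β := ∀ m : T, Z ⧸ (m : Ideal Z))
    (fun v m => Ideal.Quotient.mk (m : Ideal Z) (s v)) ?_
  intro v w hvw
  have h1 : s v - s w ∈ T.inf id := by
    rw [Submodule.mem_finsetInf]
    intro m hm
    exact (Ideal.Quotient.eq (I := m)).1 (congrFun hvw ⟨m, hm⟩)
  have h2 := (hk _).2 h1
  rw [map_sub, hs', hs', sub_eq_zero] at h2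
  exact h2

theorem lf_rev {k : Type} [Field k] {e : ℕ} (he : 0 < e) :
    (Polynomial.X ^ e - 1 : Polynomial k).reverse = 1 - Polynomial.X ^ e := by
  ext i
  have hd : (Polynomial.X ^ e - 1 : Polynomial k).natDegree = e := by
    have := Polynomial.natDegree_X_pow_sub_C (n := e) (r := (1 : k))
    rwa [Polynomial.C_1] at this
  rw [Polynomial.coeff_reverse, hd]
  by_cases hi : i ≤ e
  · rw [Polynomial.revAt_le hi]
    rw [Polynomial.coeff_sub, Polynomial.coeff_sub, Polynomial.coeff_X_pow, Polynomial.coeff_X_pow,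
      Polynomial.coeff_one, Polynomial.coeff_one]
    by_cases h0 : i = 0
    · subst h0
      have h1 : e - 0 = e := rfl
      rw [if_pos h1, if_neg (by omega), if_pos rfl, if_neg (by omega)]
    · by_cases h1 : i = e
      · subst h1
        rw [if_neg (by omega), if_pos (by omega), if_neg h0, if_pos rfl]
      · rw [if_neg (by omega), if_neg (by omega), if_neg h0, if_neg h1]
  · rw [Polynomial.revAt_eq_self_of_lt (by omega)]
    rw [Polynomial.coeff_eq_zero_of_natDegree_lt (by rw [hd]; omega)]
    rw [Polynomial.coeff_sub, Polynomial.coeff_X_pow, Polynomial.coeff_one, if_neg (by omega),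
      if_neg (by omega), sub_zero]

theorem p_lf : S_fc → S_lf := by
  intro hfc p _ Z _ _ T deg
  classical
  induction T using Finset.induction_on with
  | empty =>
    intro _ V _ _ C l hs hk _
    rw [Finset.prod_empty]
    apply absP_elnil
    intro v
    obtain ⟨z, rfl⟩ := hs v
    exact ⟨0, by rw [pow_zero]; exact (hk z).2 (by simp)⟩
  | insert m T hmT ih =>
    intro hT V _ _ C l hs hk hC
    have hT' : ∀ m ∈ T, m.IsMaximal ∧ Nat.card (Z ⧸ m) = p ^ deg m :=
      fun m' hm' => hT m' (Finset.mem_insert_of_mem hm')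
    obtain ⟨hm, hcard⟩ := hT m (Finset.mem_insert_self _ _)
    have hp := (Fact.out : p.Prime)
    have hfin : ∀ m' ∈ insert m T, Finite (Z ⧸ m') := by
      intro m' hm'
      have := (hT m' hm').2
      exact Nat.finite_of_card_ne_zero (by rw [this]; exact pow_ne_zero _ hp.ne_zero)
    have hV : Finite V := lf_finite hfin l hs hk
    have hVf : Module.Finite (ZMod p) V := Module.Finite.of_finite
    set I : Ideal Z := T.inf id with hI
    have hk' : ∀ z, l z = 0 ↔ z ∈ m ∧ z ∈ I := by
      intro z
      rw [hk, Finset.inf_insert]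
      exact Iff.rfl
    -- the subspace
    set N : Submodule (ZMod p) V := (I.restrictScalars (ZMod p)).map l with hN
    have hNm : ∀ v, v ∈ N ↔ ∃ i ∈ I, l i = v := fun v => Iff.rfl
    have hst : ∀ v ∈ N, C v ∈ N := by
      have hch : ∀ n : N, ∃ i, i ∈ I ∧ l i = n := fun n => (hNm n).1 n.2
      choose t ht1 ht2 using hch
      have hpow : ∀ n : N, l (t n ^ p) ∈ N := fun n =>
        (hNm _).2 ⟨_, I.pow_mem_of_mem (ht1 n) p hp.pos, rfl⟩
      let φ : N → N := fun n => ⟨l (t n ^ p), hpow n⟩
      have hφ : ∀ n, C (φ n) = n := fun n => by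
        show C (l (t n ^ p)) = n
        rw [hC, ht2]
      have hinj : Function.Injective φ := fun n n' h => by
        apply Subtype.ext
        rw [← hφ n, ← hφ n', h]
      have hsur := Finite.surjective_of_injective hinj
      intro v hv
      obtain ⟨n, hn⟩ := hsur ⟨v, hv⟩
      have h1 := hφ n
      rw [hn] at h1
      have h2 : C v = n := h1
      rw [h2]
      exact n.2
    have hex := absP_exact (C.restrict hst) C (N.mapQ N C hst) N.subtype N.mkQ
      Subtype.val_injective (Submodule.mkQ_surjective _)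
      (by rw [Submodule.range_subtype, Submodule.ker_mkQ]) (LinearMap.ext fun x => rfl)
      (LinearMap.ext fun x => rfl) (abs_top C)
    -- the second factor
    have h2 := ih hT' (V ⧸ N) (N.mapQ N C hst) (N.mkQ ∘ₗ l)
      ((Submodule.mkQ_surjective N).comp hs) (by
        intro z
        rw [LinearMap.comp_apply, Submodule.mkQ_apply, Submodule.Quotient.mk_eq_zero, hNm]
        constructor
        · rintro ⟨i, hi, hiz⟩
          have h3 : l (z - i) = 0 := by rw [map_sub, hiz, sub_self]
          have h4 := ((hk' _).1 h3).2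
          have h5 := I.add_mem h4 hi
          rwa [sub_add_cancel] at h5
        · intro hz
          exact ⟨z, hz, rfl⟩) (by
        intro z
        rw [LinearMap.comp_apply, LinearMap.comp_apply, Submodule.mkQ_apply, Submodule.mkQ_apply,
          Submodule.mapQ_apply, hC])
    -- the first factor
    obtain ⟨a, haI, ham⟩ : ∃ a ∈ I, 1 - a ∈ m := by
      have h3 : ¬ I ≤ m := by
        intro h
        rw [hI, hm.isPrime.inf_le'] at h
        obtain ⟨m', hm', hle⟩ := h
        have h4 : m' = m := (hT' m' hm').1.eq_of_le hm.ne_top hle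
        exact hmT (h4 ▸ hm')
      obtain ⟨x, hxI, hxm⟩ := SetLike.not_le_iff_exists.1 h3
      obtain ⟨y, i, hi, hyx⟩ := hm.exists_inv hxm
      exact ⟨y * x, I.mul_mem_left _ hxI, by rw [← hyx, add_sub_cancel_left]; exact hi⟩
    let g : Z →ₗ[ZMod p] N :=
      { toFun := fun z => ⟨l (a * z), (hNm _).2 ⟨_, I.mul_mem_right _ haI, rfl⟩⟩
        map_add' := fun z z' => Subtype.ext (by
          show l (a * (z + z')) = l (a * z) + l (a * z')
          rw [mul_add, map_add])
        map_smul' := fun c z => Subtype.ext (by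
          show l (a * (c • z)) = c • l (a * z)
          rw [mul_smul_comm, map_smul]) }
    have hgz : ∀ z, (g z : V) = l (a * z) := fun z => rfl
    have hgs : Function.Surjective g := by
      rintro ⟨v, hv⟩
      obtain ⟨i, hi, rfl⟩ := (hNm _).1 hv
      refine ⟨i, Subtype.ext ?_⟩
      rw [hgz]
      have h3 : l (i - a * i) = 0 := by
        rw [hk']
        have h4 : i - a * i = (1 - a) * i := by ring
        rw [h4]
        exact ⟨m.mul_mem_right _ ham, I.mul_mem_left _ hi⟩
      rw [map_sub, sub_eq_zero] at h3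
      exact h3.symm
    have := hm
    let _ : Field (Z ⧸ m) := Ideal.Quotient.field m
    have : Finite (Z ⧸ m) := hfin m (Finset.mem_insert_self _ _)
    have : Module.Finite (ZMod p) (Z ⧸ m) := Module.Finite.of_finite
    let h : Z →ₗ[ZMod p] (Z ⧸ m) := (Ideal.Quotient.mkₐ (ZMod p) m).toLinearMap
    have hhz : ∀ z, h z = Ideal.Quotient.mk m z := fun z => rfl
    have hhs : Function.Surjective h := Ideal.Quotient.mk_surjective
    have hker : LinearMap.ker h = LinearMap.ker g := by
      ext z
      rw [LinearMap.mem_ker, LinearMap.mem_ker, hhz, Ideal.Quotient.eq_zero_iff_mem]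
      have h3 : g z = 0 ↔ l (a * z) = 0 := by
        rw [← hgz]
        exact (Submodule.coe_eq_zero).symm
      rw [h3, hk']
      constructor
      · intro hz
        exact ⟨m.mul_mem_left _ hz, I.mul_mem_right _ haI⟩
      · rintro ⟨h4, -⟩
        have h5 : z = a * z + (1 - a) * z := by ring
        rw [h5]
        exact m.add_mem h4 (m.mul_mem_right _ ham)
    obtain ⟨e, he⟩ := lf_equiv h g hhs hgs hker
    let D : (Z ⧸ m) →ₗ[ZMod p] (Z ⧸ m) :=
      (e.symm : N →ₗ[ZMod p] (Z ⧸ m)) ∘ₗ (C.restrict hst) ∘ₗ (e : (Z ⧸ m) →ₗ[ZMod p] N)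
    have hD : ∀ x, D (x ^ p) = x := by
      intro x
      obtain ⟨z, rfl⟩ := Ideal.Quotient.mk_surjective x
      show e.symm (C.restrict hst (e ((Ideal.Quotient.mk m z) ^ p))) = Ideal.Quotient.mk m z
      rw [LinearEquiv.symm_apply_eq, ← map_pow, ← hhz, ← hhz, he, he]
      apply Subtype.ext
      show C (l (a * z ^ p)) = l (a * z)
      rw [← hC (a * z)]
      congr 1
      rw [← sub_eq_zero, ← map_sub, hk', mul_pow]
      have h3 : a * z ^ p - a ^ p * z ^ p = (a - a ^ p) * z ^ p := by ring
      rw [h3]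
      refine ⟨m.mul_mem_right _ ?_, I.mul_mem_right _ (I.sub_mem haI
        (I.pow_mem_of_mem haI p hp.pos))⟩
      rw [← Ideal.Quotient.eq] at ham ⊢
      rw [map_pow, ← ham, map_one, one_pow]
    have h3 := hfc p (Z ⧸ m) (deg m) hcard D hD
    have h4 : absP (C.restrict hst) = absP D := absP_equiv e (abs_top D) (by
      ext x
      simp only [LinearMap.comp_apply, D, LinearEquiv.coe_coe, LinearEquiv.apply_symm_apply])
    have hpos : 0 < deg m := by
      rcases Nat.eq_zero_or_pos (deg m) with h5 | h5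
      · rw [h5, pow_zero, Nat.card_eq_one_iff_unique] at hcard
        exact absurd hcard.1 (not_subsingleton _)
      · exact h5
    rw [Finset.prod_insert hmT, hex, h2, h4, absP_fin, h3, lf_rev hpos]

end Pool.Agent.FrB
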