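import Pool.Agent.Lib.MP_305fdd_al.Fr.N.B.Stm

set_option autoImplicit false

/-!
# MP_305fdd_al, F_r, nilpotence block, section B: piece ys
-/

namespace Pool.Agent.FrB

theorem p_ys : S_ys := by
  intro Z _ _ N T hT
  classical
  -- the given parameters
  have hT' : ∀ m : Ideal Z, ∃ y : Fin N → Z, m ∈ T → (∀ i, y i ∈ m) ∧
      ∃ h : Z, h ∉ m ∧ ∀ z ∈ m, h * z ∈ Ideal.span (Set.range y) := by
    intro m
    by_cases hm : m ∈ T
    · obtain ⟨y, hy⟩ := (hT m hm).2
      exact ⟨y, fun _ => hy⟩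
    · exact ⟨fun _ => 0, fun h => absurd h hm⟩
  choose ym hym using hT'
  have hcop : Pairwise (Function.onFun IsCoprime fun m : T => (m : Ideal Z) ^ 2) := by
    intro m m' hne
    have h1 : (m : Ideal Z).IsMaximal := (hT m m.2).1
    have h2 : (m' : Ideal Z).IsMaximal := (hT m' m'.2).1
    have h3 : IsCoprime (m : Ideal Z) (m' : Ideal Z) := by
      rw [Ideal.isCoprime_iff_sup_eq]
      exact Ideal.IsMaximal.coprime_of_ne h1 h2 fun h => hne (Subtype.ext h)
    exact h3.pow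
  have hy : ∀ i : Fin N, ∃ y : Z, ∀ m ∈ T, y - ym m i ∈ m ^ 2 := by
    intro i
    obtain ⟨y, hy⟩ := Ideal.exists_forall_sub_mem_ideal hcop (fun m => ym m i)
    exact ⟨y, fun m hm => hy ⟨m, hm⟩⟩
  choose y hy using hy
  refine ⟨y, fun m hm => ?_⟩
  have hmax : m.IsMaximal := (hT m hm).1
  obtain ⟨hm1, h, hh, hh2⟩ := hym m hm
  have hyi : ∀ i, y i ∈ m := by
    intro i
    have h1 : y i - ym m i ∈ m := Ideal.pow_le_self two_ne_zero (hy i m hm)
    have h2 := m.add_mem h1 (hm1 i)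
    rwa [sub_add_cancel] at h2
  refine ⟨hyi, ?_⟩
  set Y : Ideal Z := Ideal.span (Set.range y) with hY
  have hspan : Ideal.span (Set.range (ym m)) ≤ Y ⊔ m ^ 2 := by
    rw [Ideal.span_le]
    rintro _ ⟨i, rfl⟩
    have h1 : y i ∈ Y := Ideal.subset_span ⟨i, rfl⟩
    have h2 := (Y ⊔ m ^ 2).sub_mem (Ideal.mem_sup_left h1) (Ideal.mem_sup_right (hy i m hm))
    rwa [sub_sub_cancel] at h2
  obtain ⟨g, c, hc, hgc⟩ := hmax.exists_inv hh
  have hz : ∀ z ∈ m, z ∈ Y ⊔ m ^ 2 := by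
    intro z hz
    have h1 : z = g * (h * z) + c * z := by
      calc z = (g * h + c) * z := by rw [hgc, one_mul]
        _ = g * (h * z) + c * z := by ring
    rw [h1]
    refine (Y ⊔ m ^ 2).add_mem ?_ (Ideal.mem_sup_right ?_)
    · exact (Y ⊔ m ^ 2).mul_mem_left _ (hspan (hh2 z hz))
    · rw [sq]; exact Ideal.mul_mem_mul hc hz
  have hfg : (Submodule.map Y.mkQ m).FG := (IsNoetherian.noetherian m).map _
  have hle : Submodule.map Y.mkQ m ≤ m • Submodule.map Y.mkQ m := by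
    rw [← Submodule.map_smul'']
    rintro _ ⟨z, hzm, rfl⟩
    obtain ⟨a, ha, b, hb, hab⟩ := Submodule.mem_sup.1 (hz z hzm)
    refine ⟨b, ?_, ?_⟩
    · rw [sq] at hb
      exact hb
    · have h1 : z - b ∈ Y := by
        rw [← hab, add_sub_cancel_right]; exact ha
      have h2 : Y.mkQ (z - b) = 0 := by
        rw [Submodule.mkQ_apply]
        exact (Submodule.Quotient.mk_eq_zero Y).2 h1
      rw [map_sub, sub_eq_zero] at h2
      exact h2.symm
  obtain ⟨r, hr1, hr2⟩ := Submodule.exists_sub_one_mem_and_smul_eq_zero_of_fg_of_le_smul m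
    (Submodule.map Y.mkQ m) hfg hle
  refine ⟨r, ?_, ?_⟩
  · intro hrm
    apply hmax.ne_top
    rw [Ideal.eq_top_iff_one]
    have h1 := m.sub_mem hrm hr1
    rwa [sub_sub_cancel] at h1
  · intro z hzm
    have h1 := hr2 (Y.mkQ z) ⟨z, hzm, rfl⟩
    rw [← map_smul, Submodule.mkQ_apply, Submodule.Quotient.mk_eq_zero] at h1
    simpa using h1

end Pool.Agent.FrB
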