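import Pool.Agent.Lib.MP_305fdd_al.Fr.N.B.Fac
import Pool.Agent.Lib.MP_305fdd_al.Fr.N.B.p_lf
import Pool.Agent.Lib.MP_305fdd_al.Fr.N.B.p_fc
import Pool.Agent.Lib.MP_305fdd_al.Fr.N.B.p_fr
import Pool.Agent.Lib.MP_305fdd_al.Fr.N.B.p_ys

/-!
# MP_305fdd_al, F_r, nilpotence block, section B: the final statement

For a regular ring the smallest nonzero stable submodule has the polynomial `∏ (1 - X ^ deg m) ^ (± 1)`
modulo `X ^ (d + 1)`.
-/

set_option autoImplicit false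
set_option linter.unusedSectionVars false

namespace Pool.Agent.FrB

open Pool.Agent.F2Ch Pool.Agent.F2RF Pool.Agent.FrN Pool.Agent.FrNA

section

variable {p : ℕ} [hp : Fact p.Prime] {L : Type} [Field L] [CharP L p] [Algebra (ZMod p) L]

theorem pb_uniq {ι : Type} [Fintype ι] {w : ι → L} {π π' : ι → L → L} (h : IsPB p w π)
    (h' : IsPB p w π') : π = π' := by
  funext i f
  have h1 := h.uniq (fun j => π' j f) i
  rw [h'.repr] at h1
  exact h1

theorem logty_pinv {Φ : L → L} (h : LogTy p Φ) : IsPinv p Φ := by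
  obtain ⟨d, t, π, g, hb, hg, h1⟩ := h
  refine ⟨fun x y => ?_, fun a b => ?_⟩
  · rw [h1, h1, h1, mul_add, pb_add hb.pb, mul_add]
  · rw [h1, h1]
    have h2 : g * (a ^ p * b) = a ^ p * (g * b) := by ring
    rw [h2, pb_pow_mul hb.pb]
    ring

/-- reindexing -/
theorem exists_pb {N : ℕ} {t : Fin N → L} {π : (Fin N → Fin p) → L → L} (h : MB p t π) :
    ∃ (b : Fin (p ^ N) → L) (ρ : Fin (p ^ N) → L → L), IsPB p b ρ := by
  let e : Fin (p ^ N) ≃ (Fin N → Fin p) := finFunctionFinEquiv.symm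
  refine ⟨fun i => monY (p := p) t (e i), fun i => π (e i), ?_⟩
  constructor
  · intro f
    conv_rhs => rw [← h.pb.repr f]
    exact Equiv.sum_comp e fun j => π j f ^ p * monY (p := p) t j
  · intro c i
    have h1 := h.pb.uniq (fun j => c (e.symm j)) (e i)
    rw [Equiv.symm_apply_apply] at h1
    rw [← h1]
    congr 1
    rw [← Equiv.sum_comp e fun j => c (e.symm j) ^ p * monY (p := p) t j]
    exact Finset.sum_congr rfl fun j _ => by rw [Equiv.symm_apply_apply]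

theorem reg_of {N : ℕ} {Z : Subalgebra (ZMod p) L} (h : FrN.Reg N Z) : FrB.Reg Z N := by
  intro m hm
  obtain ⟨y, s, h1, h2, h3⟩ := h m hm
  exact ⟨y, h1, s, h2, h3⟩

/-- common local data -/
theorem exists_ldt {Z : Subalgebra (ZMod p) L} (hfg : Z.FG) (hfr : FrB.Frc Z) {N : ℕ}
    {b : Fin (p ^ N) → L} {ρ : Fin (p ^ N) → L → L} (hb : IsPB p b ρ) (hreg : FrB.Reg Z N)
    {Φ : L → L} (hΦ : LogTy p Φ) (T : Finset (Ideal Z)) (hT : ∀ m ∈ T, m.IsMaximal) :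
    ∃ (y : Fin N → Z) (π : (Fin N → Fin p) → L → L) (JJ : L),
      LDT (Om Z Φ) y π JJ T ∧ JForm π JJ Φ ∧ ∀ m ∈ T, ∀ i, y i ∈ m := by
  classical
  have hft : Algebra.FiniteType (ZMod p) Z := ⟨(Subalgebra.fg_top Z).2 hfg⟩
  have hno : IsNoetherianRing Z := Algebra.FiniteType.isNoetherianRing (ZMod p) Z
  obtain ⟨m0, hm0⟩ := Ideal.exists_maximal Z
  have hT' : ∀ m ∈ insert m0 T, m.IsMaximal := by
    intro m hm
    rw [Finset.mem_insert] at hm
    rcases hm with rfl | hm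
    · exact hm0
    · exact hT m hm
  obtain ⟨y, hy⟩ := p_ys Z N (insert m0 T) fun m hm => ⟨hT' m hm, hreg m (hT' m hm)⟩
  have hch : ∀ m ∈ insert m0 T, ∃ r : Z, r ∉ m ∧ ∃ π : (Fin N → Fin p) → L → L,
      Cht p Z (r : L) (fun i => (y i : L)) π := by
    intro m hm
    have := hT' m hm
    obtain ⟨h1, h, h2, h3⟩ := hy m hm
    exact exists_chart hfg hfr hb m y h1 h h2 h3
  obtain ⟨r0, -, π, C0⟩ := hch m0 (Finset.mem_insert_self _ _)
  obtain ⟨JJ, hJ⟩ := exists_jform C0.mb hΦ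
  refine ⟨y, π, JJ, ⟨hJ.1, fun m hm => ?_⟩, hJ, fun m hm => (hy m (Finset.mem_insert_of_mem hm)).1⟩
  have hm' := hT m hm
  obtain ⟨r, hr, π', C⟩ := hch m (Finset.mem_insert_of_mem hm)
  have hπ : π' = π := pb_uniq C.mb.pb C0.mb.pb
  subst hπ
  obtain ⟨h1, h, h2, h3⟩ := hy m (Finset.mem_insert_of_mem hm)
  obtain ⟨hne, -, -⟩ := om_main hfg hfr hb hreg hΦ
  obtain ⟨v, hv, hvJ⟩ := stb_loc hfg hfr C hJ m hr hne (om_stb Z Φ)
  refine ⟨r, h, v, hm', C, hr, h2, fun z hz => ?_, hv, hvJ, om_le (locM_stb C hJ).1 (locM_stb C hJ).2,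
    h1⟩
  unfold yS
  rw [Set.image_univ]
  exact h3 z hz

/-- the polynomial of a submodule of the field and of the corresponding Cartier module -/
theorem PF_eq {Z : Subalgebra (ZMod p) L} {Φ : L → L} (h : IsPinv p Φ) (M : Submodule Z L)
    (hM : FrN.Stb Φ M) (hW : ∃ W, Nuc (toC h M hM).C ⊤ W) : PF h M = (toC h M hM).P := by
  obtain ⟨W, hW⟩ := hW
  rw [nuc_top] at hW
  have hst : ∀ v ∈ M.restrictScalars (ZMod p), toEnd h v ∈ M.restrictScalars (ZMod p) :=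
    fun v hv => hM v hv
  let e : (toC h M hM).M ≃ₗ[ZMod p] (M.restrictScalars (ZMod p)) :=
    { toFun := fun x => ⟨x.1, x.2⟩
      invFun := fun x => ⟨x.1, x.2⟩
      map_add' := fun x y => rfl
      map_smul' := fun c x => rfl
      left_inv := fun x => rfl
      right_inv := fun x => rfl }
  have hcomm : ((toEnd h).restrict hst) ∘ₗ (e : (toC h M hM).M →ₗ[ZMod p] _) =
      (e : (toC h M hM).M →ₗ[ZMod p] _) ∘ₗ (toC h M hM).C := LinearMap.ext fun x => rfl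
  have h1 : Abs ((toEnd h).restrict hst) (W.map (e : (toC h M hM).M →ₗ[ZMod p] _)) :=
    hW.map hcomm fun v => ⟨0, e.surjective v⟩
  have h2 := restrict_nuc hst h1
  show PV _ _ = PV _ _
  rw [PU_eq_iff, PP_restrict hst h2, PP_top hW]
  exact absP_equiv e hW hcomm

theorem coe_u1 {R : Type} [CommRing R] {e : ℕ} (he : 1 ≤ e) :
    ((FrN.u1 R e : (PowerSeries R)ˣ) : PowerSeries R) = 1 - PowerSeries.X ^ e := by
  have h : IsUnit (1 - PowerSeries.X ^ e : PowerSeries R) := by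
    rw [PowerSeries.isUnit_iff_constantCoeff]
    rw [map_sub, map_one, map_pow, PowerSeries.constantCoeff_X, zero_pow (by omega), sub_zero]
    exact isUnit_one
  rw [FrN.u1, dif_pos h, IsUnit.unit_spec]

/-- the product over the closed points -/
theorem zu_eq (p : ℕ) [hp : Fact p.Prime] (Z : Type) [CommRing Z] (d : ℕ) (T : Finset (Ideal Z))
    (hT : ∀ m, m ∈ T ↔ m.IsMaximal ∧ ∃ e, 1 ≤ e ∧ e ≤ d ∧ Nat.card (Z ⧸ m) = p ^ e) :
    zu p Z d = ∏ m ∈ T, FrN.u1 (ZMod p) (Nat.log p (Nat.card (Z ⧸ m))) := by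
  classical
  have hlog : ∀ e : ℕ, Nat.log p (p ^ e) = e := fun e => Nat.log_pow hp.out.one_lt e
  have h1 : ∀ m ∈ T, Nat.log p (Nat.card (Z ⧸ m)) ∈ Finset.Icc 1 d := by
    intro m hm
    obtain ⟨-, e, h1, h2, h3⟩ := (hT m).1 hm
    rw [h3, hlog, Finset.mem_Icc]
    exact ⟨h1, h2⟩
  rw [zu, ← Finset.prod_fiberwise_of_maps_to h1]
  refine Finset.prod_congr rfl fun e he => ?_
  rw [Finset.mem_Icc] at he
  have h2 : cpt p Z e = ((T.filter fun m => Nat.log p (Nat.card (Z ⧸ m)) = e : Finset (Ideal Z)) :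
      Set (Ideal Z)) := by
    ext m
    rw [Finset.mem_coe, Finset.mem_filter, hT]
    constructor
    · rintro ⟨h3, h4⟩
      exact ⟨⟨h3, e, he.1, he.2, h4⟩, by rw [h4, hlog]⟩
    · rintro ⟨⟨h3, e', h4, h5, h6⟩, h7⟩
      rw [h6, hlog] at h7
      exact ⟨h3, by rw [h6, h7]⟩
  rw [h2, Nat.card_coe_set_eq, Set.ncard_coe_finset, ← Finset.prod_const]
  refine Finset.prod_congr rfl fun m hm => ?_
  rw [(Finset.mem_filter.1 hm).2]

theorem om_stb' (Z : Subalgebra (ZMod p) L) (Φ : L → L) : FrN.Stb Φ (Om Z Φ) := om_stb Z Φ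

/-- the last quotient -/
theorem last_fac (hN : S_NS) (hnuc : I_nuc) {Z : Subalgebra (ZMod p) L} (hfg : Z.FG) {N : ℕ}
    {M : Submodule Z L} {y : Fin N → Z} {π : (Fin N → Fin p) → L → L} {JJ : L}
    {T : Finset (Ideal Z)} (D : LDT M y π JJ T) {Φ : L → L} (hJF : JForm π JJ Φ) (d : ℕ)
    (hT : ∀ m, m ∈ T ↔ m.IsMaximal ∧ ∃ e, 1 ≤ e ∧ e ≤ d ∧ Nat.card (Z ⧸ m) = p ^ e)
    (hJ : ∀ k, 1 ≤ k → k ≤ d → T.inf id ≤ frI p k Z) (X : CMod p Z) [Module.Finite Z X.M]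
    (q : M →ₗ[Z] X.M) (hqs : Function.Surjective q)
    (hqk : ∀ x : M, q x = 0 ↔ x ∈ yS y Set.univ • (⊤ : Submodule Z M))
    (hqe : ∀ x : M, ∃ x' : M, (x' : L) = Φ ((∏ i, (y i : L)) ^ (p - 1) * x) ∧ X.C (q x) = q x') :
    X.P / zu p Z d ∈ Ud (ZMod p) d := by
  have hft : Algebra.FiniteType (ZMod p) Z := ⟨(Subalgebra.fg_top Z).2 hfg⟩
  obtain ⟨⟨W, hW⟩, hV⟩ := P_nsQ hN hnuc X d (T.inf id) hJ
  obtain ⟨w, hw, hwM⟩ := D.gen
  have hq0 : ∀ x : M, (∃ b : Z, b - 1 ∈ T.inf id ∧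
      b • x ∈ yS y Set.univ • (⊤ : Submodule Z M)) ↔
      (nsub (T.inf id) X).mkQ (q x) = 0 := by
    intro x
    rw [Submodule.mkQ_apply, Submodule.Quotient.mk_eq_zero, mem_nsub]
    constructor
    · rintro ⟨b, hb, h1⟩
      exact ⟨b, hb, by rw [← map_smul]; exact (hqk _).2 h1⟩
    · rintro ⟨b, hb, h1⟩
      rw [← map_smul] at h1
      exact ⟨b, hb, (hqk _).1 h1⟩
  let w' : M := ⟨(w : L) * JJ, hwM⟩
  let l : Z →ₗ[ZMod p] (nsQ (T.inf id) X).M :=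
    ((nsub (T.inf id) X).mkQ ∘ₗ q ∘ₗ LinearMap.toSpanSingleton Z M w').restrictScalars (ZMod p)
  have hl : ∀ z : Z, l z = (nsub (T.inf id) X).mkQ (q (z • w')) := fun z => rfl
  have hJV : ∀ (x : M) (j : Z), j ∈ T.inf id → (nsub (T.inf id) X).mkQ (q (j • x)) = 0 :=
    fun x j hj => (hq0 _).1 (D.mul_J x j hj)
  have hls : Function.Surjective l := by
    intro v
    obtain ⟨x, rfl⟩ := Submodule.mkQ_surjective _ v
    obtain ⟨x, rfl⟩ := hqs x
    obtain ⟨b, z, hb, h1⟩ := D.surj hw hwM x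
    refine ⟨z, ?_⟩
    rw [hl]
    have h2 : z • w' = (b - 1) • x + x := by
      apply Subtype.ext
      have h3 : (b : L) * (x : L) = (z : L) * ((w : L) * JJ) := congrArg Subtype.val h1
      show (z : L) * ((w : L) * JJ) = ((b - 1 : Z) : L) * (x : L) + (x : L)
      rw [← h3]
      push_cast
      ring
    rw [h2, map_add, map_add, hJV x _ hb, zero_add]
  have hlk : ∀ z, l z = 0 ↔ z ∈ T.inf id := by
    intro z
    rw [hl]
    constructor
    · intro h1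
      obtain ⟨b, hb, h2⟩ := (hq0 _).2 h1
      exact D.ker hw hwM b z hb h2
    · intro h1
      exact hJV _ _ h1
  have hle : ∀ z, (nsQ (T.inf id) X).C (l (z ^ p)) = l z := by
    intro z
    rw [hl, hl, nsQ_C]
    obtain ⟨x', hx', h2⟩ := hqe w'
    have h1 : X.C (q (z ^ p • w')) = z • q x' := by rw [map_smul, X.hC, h2]
    have h3 := (hq0 _).1 (D.eqv hJF hw hwM x' hx')
    rw [map_sub, map_sub, sub_eq_zero] at h3
    rw [h1]
    have h4 : (nsub (T.inf id) X).mkQ (z • q x') = z • (nsub (T.inf id) X).mkQ (q x') :=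
      map_smul _ _ _
    have h5 : (nsub (T.inf id) X).mkQ (q (z • w')) = z • (nsub (T.inf id) X).mkQ (q w') := by
      rw [map_smul q]
      exact map_smul _ _ _
    rw [h4, h5, h3]
  have hlf := p_lf p_fc p Z T (fun m => Nat.log p (Nat.card (Z ⧸ m))) (fun m hm => by
    obtain ⟨h1, e, -, -, h2⟩ := (hT m).1 hm
    exact ⟨h1, by rw [h2, Nat.log_pow hp.out.one_lt]⟩) (nsQ (T.inf id) X).M (nsQ (T.inf id) X).C l
    hls hlk hle
  have hVz : (nsQ (T.inf id) X).P = zu p Z d := by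
    rw [Units.ext_iff, zu_eq p Z d T hT, Units.coe_prod]
    show ((PV (nsQ (T.inf id) X).C ⊤ : (PowerSeries (ZMod p))ˣ) : PowerSeries (ZMod p)) = _
    rw [coe_PV, PP_top (nuc_top.1 hW), hlf]
    rw [← Polynomial.coeToPowerSeries.ringHom_apply, map_prod]
    refine Finset.prod_congr rfl fun m hm => ?_
    obtain ⟨h1, e, he, -, h2⟩ := (hT m).1 hm
    have he' : 1 ≤ Nat.log p (Nat.card (Z ⧸ m)) := by
      rw [h2, Nat.log_pow hp.out.one_lt]
      exact he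
    rw [coe_u1 he', Polynomial.coeToPowerSeries.ringHom_apply, Polynomial.coe_sub,
      Polynomial.coe_one, Polynomial.coe_pow, Polynomial.coe_X]
  rw [hVz] at hV
  exact hV

/-- the local factor -/
theorem loc_fac (hA : S_A6) (hK : S_Kstep) (hN : S_NS) (hnuc : I_nuc)
    {Z : Subalgebra (ZMod p) L} (hfg : Z.FG) (hfr : FrB.Frc Z) {N : ℕ}
    {b : Fin (p ^ N) → L} {ρ : Fin (p ^ N) → L → L} (hb : IsPB p b ρ) (hreg : FrB.Reg Z N)
    {Φ : L → L} (hΦ : LogTy p Φ) (h : IsPinv p Φ) (d : ℕ) :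
    (toC h (Om Z Φ) (om_stb' Z Φ)).P / zu p Z d ^ sgn N ∈ Ud (ZMod p) d := by
  have hft : Algebra.FiniteType (ZMod p) Z := ⟨(Subalgebra.fg_top Z).2 hfg⟩
  obtain ⟨T, hT, -, hTJ⟩ := p_fr p Z d
  have hJ : ∀ k, 1 ≤ k → k ≤ d → T.inf id ≤ frI p k Z := hTJ
  have hTm : ∀ m ∈ T, m.IsMaximal := fun m hm => ((hT m).1 hm).1
  obtain ⟨y, π, JJ, D, hJF, hyT⟩ := exists_ldt hfg hfr hb hreg hΦ T hTm
  have hyJ : ∀ i, y i ∈ T.inf id := by
    intro i
    rw [Submodule.mem_finsetInf]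
    exact fun m hm => hyT m hm i
  obtain ⟨-, hOfg, -⟩ := om_main hfg hfr hb hreg hΦ
  have hYf : Module.Finite Z (toC h (Om Z Φ) (om_stb' Z Φ)).M := Module.Finite.iff_fg.2 hOfg
  obtain ⟨X, q, hXf, hq, hX⟩ := koz hA hK hN (toC h (Om Z Φ) (om_stb' Z Φ)) y d (T.inf id) hJ hyJ
    (fun S j hj m hm => D.rg hfg S j hj m hm)
  have hV : X.P / zu p Z d ∈ Ud (ZMod p) d := by
    refine last_fac hN hnuc hfg D hJF d hT hJ X q hq.surj (fun x => ?_) fun x =>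
      ⟨(toC h (Om Z Φ) (om_stb' Z Φ)).C ((∏ i, y i) ^ (p - 1) • x), ?_, hq.eqv x⟩
    · have h1 := hq.ker x
      rw [Finset.coe_univ] at h1
      exact h1
    · show Φ (((∏ i, y i) ^ (p - 1) : Z) * (x : L)) = _
      rw [SubmonoidClass.coe_pow, SubmonoidClass.coe_finsetProd]
  have h1 : (toC h (Om Z Φ) (om_stb' Z Φ)).P / zu p Z d ^ sgn N =
      ((toC h (Om Z Φ) (om_stb' Z Φ)).P / X.P ^ sgn N) * (X.P / zu p Z d) ^ sgn N := by
    rw [div_zpow, div_mul_div_cancel]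
  rw [h1]
  exact mul_mem hX (zpow_mem hV _)

/-- SECTION B -/
theorem p_B (hA : S_A6) (hK : S_Kstep) (hN : S_NS) (hnuc : I_nuc) : I_B := by
  intro p hp L _ _ _ Z hfg hfr N hreg t π hMB Φ hΦ
  obtain ⟨b, ρ, hb⟩ := exists_pb hMB
  have hreg' := reg_of hreg
  have hfr' : FrB.Frc Z := hfr
  obtain ⟨h1, h2, -⟩ := om_main hfg hfr' hb hreg' hΦ
  have hft : Algebra.FiniteType (ZMod p) Z := ⟨(Subalgebra.fg_top Z).2 hfg⟩
  refine ⟨logty_pinv hΦ, Om Z Φ, ⟨h1, om_stb Z Φ, fun Q hQ hs => om_le hQ hs⟩, h2, fun d => ?_⟩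
  have hYf : Module.Finite Z (toC (logty_pinv hΦ) (Om Z Φ) (om_stb' Z Φ)).M :=
    Module.Finite.iff_fg.2 h2
  rw [PF_eq (logty_pinv hΦ) (Om Z Φ) (om_stb' Z Φ) (hnuc p Z _), ← div_mem_Ud]
  exact loc_fac hA hK hN hnuc hfg hfr' hb hreg' hΦ _ d

end

end Pool.Agent.FrB
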