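import Pool.Agent.Lib.MP_305fdd_al.Fr.N.A.Abs

/-!
# MP_305fdd_al, F_r, nilpotence block, section B: pieces for the local factor
-/

set_option autoImplicit false

namespace Pool.Agent.FrB

open Pool.Agent.FrNA

/-- [FrN B fc] The characteristic polynomial of the inverse Frobenius of a finite field.

Proof. `F x = x ^ p` is a `ZMod p`-linear bijection of `κ` with `F ^ e = 1` (`x ^ (p ^ e) = x`), `C ∘ F = 1`,
so `C` is the inverse of `F` and `C ^ e = 1`: the polynomial `X ^ e - 1` kills `C`.  `finrank (ZMod p) κ = e`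
(cardinality).  If a polynomial `q` of degree `< e` kills `C`, `∑_{i<e} q_i C ^ i = 0`, compose with `F ^ (e - 1)`:
`∑ q_i F ^ (e - 1 - i) = 0`, a linear relation between the monoid homomorphisms `x ↦ x ^ (p ^ j)`, `j < e`, which
are distinct (a nonzero polynomial `X ^ (p ^ j) - X ^ (p ^ i)` of degree `< p ^ e` has fewer than `p ^ e` roots), so
all `q_i = 0` (`linearIndependent_monoidHom`).  So `X ^ e - 1` is the minimal polynomial of `C`; it divides the
characteristic polynomial (`LinearMap.minpoly_dvd_charpoly`), which is monic of degree `e`: they are equal.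
(Alternatively, Mathlib may already know the characteristic polynomial of the Frobenius of a finite field, and `C = F ^ (e-1)`.) -/
def S_fc : Prop :=
  ∀ (p : ℕ) [Fact p.Prime] (κ : Type) [Field κ] [Algebra (ZMod p) κ] [Module.Finite (ZMod p) κ]
    (e : ℕ), Nat.card κ = p ^ e → ∀ C : κ →ₗ[ZMod p] κ, (∀ x, C (x ^ p) = x) →
    C.charpoly = Polynomial.X ^ e - 1

/-- [FrN B lf] The characteristic polynomial of the inverse Frobenius of a finite product of finite fields.
(Uses `S_fc`.)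

Proof. Induction on `T` (`Finset.induction_on`), for all `V`, `C`, `ℓ`.  `T = ∅`: `ker ℓ = ⊤`, `V = 0`, `absP C = 1`
(`absP_elnil`).  Step `insert m T`, `m ∉ T`; `I = T.inf id`, so `ker ℓ = m ⊓ I`.  `V` is finite-dimensional (finitely many
elements: `Z ⧸ (m ⊓ I)` embeds into the product of the finite `Z ⧸ m'`), so `abs_top`.  `N = ℓ (I)`, a `C`-stable subspace
(for `i ∈ I` choose, `ℓ` being surjective onto `V`, `z` with `ℓ z = C (ℓ i)`; then `ℓ (z ^ p) = F (ℓ z)` where `F` is induced by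
`z ↦ z ^ p`; simpler: the Frobenius `F` of the reduced finite ring `V = Z ⧸ ker ℓ` is bijective, `C = F⁻¹`, and `F (N) ⊆ N`, so `F (N) = N` by
finiteness).  Exact sequence `N → V → V ⧸ N`, `absP_exact`: `absP C = absP (C | N) * absP (C on V ⧸ N)`.
Second factor: `ℓ' : Z → V ⧸ N` is onto with kernel `I`: induction hypothesis.
First factor: `m` and `I` are coprime (`m` maximal, `I ≰ m` because no `m' ∈ T` is contained in `m`); choose `a ∈ I` with
`1 - a ∈ m`.  `Z → N`, `z ↦ ℓ (a z)` is onto (`ℓ i = ℓ (a i)` as `(1 - a) i ∈ m ⊓ I`) with kernel `m`, and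
`C (ℓ (a z ^ p)) = C (ℓ ((a z) ^ p)) = ℓ (a z)` (`a - a ^ p ∈ m ⊓ I`): so `N ≃ Z ⧸ m` with `C (x ^ p) = x`, and `S_fc`
gives `(X ^ e - 1).reverse = 1 - X ^ e` (`absP_fin`, `absP_equiv`; `e ≥ 1` as `Z ⧸ m` has more than one element). -/
def S_lf : Prop :=
  ∀ (p : ℕ) [Fact p.Prime] (Z : Type) [CommRing Z] [Algebra (ZMod p) Z] (T : Finset (Ideal Z))
    (deg : Ideal Z → ℕ), (∀ m ∈ T, m.IsMaximal ∧ Nat.card (Z ⧸ m) = p ^ deg m) →
    ∀ (V : Type) [AddCommGroup V] [Module (ZMod p) V] (C : V →ₗ[ZMod p] V)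
      (l : Z →ₗ[ZMod p] V), Function.Surjective l → (∀ z, l z = 0 ↔ z ∈ T.inf id) →
      (∀ z, C (l (z ^ p)) = l z) →
      absP C = ∏ m ∈ T, (1 - Polynomial.X ^ deg m)

/-- [FrN B ys] Common local parameters at finitely many maximal ideals.

Proof. For `m ∈ T` let `y_m i` be the given parameters.  The ideals `m ^ 2`, `m ∈ T`, are pairwise coprime, so
(Chinese remainder theorem) there are `y i ∈ Z` with `y i - y_m i ∈ m ^ 2` for all `m ∈ T`; then `y i ∈ m`.  Fix `m ∈ T`, `h ∉ m`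
with `h m ≤ (y_m)`, `Y = Ideal.span (range y)`.  `(y_m) ≤ Y ⊔ m ^ 2`, and `1 - h g ∈ m` for some `g`, so for `z ∈ m`:
`z = g (h z) + (1 - h g) z ∈ Y ⊔ m ^ 2`.  Nakayama for the image `M` of `m` in `Z ⧸ Y` (finitely generated, `M ≤ m • M`;
`Submodule.exists_sub_one_mem_and_smul_eq_zero_of_fg_of_le_smul`): there is `r` with `r - 1 ∈ m` and `r m ≤ Y`; `r ∉ m`. -/
def S_ys : Prop :=
  ∀ (Z : Type) [CommRing Z] [IsNoetherianRing Z] (N : ℕ) (T : Finset (Ideal Z)),
    (∀ m ∈ T, m.IsMaximal ∧ ∃ y : Fin N → Z, (∀ i, y i ∈ m) ∧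
      ∃ h : Z, h ∉ m ∧ ∀ z ∈ m, h * z ∈ Ideal.span (Set.range y)) →
    ∃ y : Fin N → Z, ∀ m ∈ T, (∀ i, y i ∈ m) ∧
      ∃ h : Z, h ∉ m ∧ ∀ z ∈ m, h * z ∈ Ideal.span (Set.range y)

/-- [FrN B fr] The finitely many maximal ideals of degree at most `d`, and the ideals generated by the
`b ^ (p ^ k) - b`.

Proof. `I_k = Ideal.span (range fun b => b ^ (p ^ k) - b)`.  `R = Z ⧸ I_k` satisfies `x ^ (p ^ k) = x`; it is finite: it is a
finitely generated algebra over `ZMod p` in which every element is integral, so a finite module (`Algebra.IsIntegral.finite`); so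
only finitely many ideals contain `I_k`.  A maximal ideal `m` with `Nat.card (Z ⧸ m) = p ^ e` contains `I_e`; so there are
finitely many of them with `1 ≤ e ≤ d`: `T`.  Conversely let `m` be maximal, `I_k ≤ m`, `1 ≤ k ≤ d`.  `Z ⧸ m` is a finite field
of characteristic `p` with `p ^ e` elements, `e ≥ 1`, in which `x ^ (p ^ k) = x` for all `x`; the polynomial `X ^ (p ^ k) - X` has at most
`p ^ k` roots, so `p ^ e ≤ p ^ k`, `e ≤ k ≤ d`.  Last statement: let `x ∈ T.inf id` and suppose `x ∉ I_k`.  In `R`, `x` is not nilpotent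
(`x ^ (p ^ k) = x ≠ 0`), so there is a prime ideal of `R` not containing it, and it is maximal (`R` is finite); its preimage `m` in `Z` is
a maximal ideal containing `I_k`, so `m ∈ T` and `x ∈ m`, a contradiction. -/
def S_fr : Prop :=
  ∀ (p : ℕ) [Fact p.Prime] (Z : Type) [CommRing Z] [Algebra (ZMod p) Z]
    [Algebra.FiniteType (ZMod p) Z] (d : ℕ), ∃ T : Finset (Ideal Z),
    (∀ m, m ∈ T ↔ m.IsMaximal ∧ ∃ e, 1 ≤ e ∧ e ≤ d ∧ Nat.card (Z ⧸ m) = p ^ e) ∧
    (∀ m : Ideal Z, m.IsMaximal → ∀ k, 1 ≤ k → k ≤ d →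
      Ideal.span (Set.range fun b : Z => b ^ (p ^ k) - b) ≤ m → m ∈ T) ∧
    ∀ k, 1 ≤ k → k ≤ d → T.inf id ≤ Ideal.span (Set.range fun b : Z => b ^ (p ^ k) - b)

end Pool.Agent.FrB
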